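import Mathlib

set_option autoImplicit false

namespace R3B
open Finset BigOperators

/-- the value at three points of the plane of the polynomial used in the construction -/
def ff (u v w : ℝ × ℝ) : ℝ :=
  (4 * ((v.1 - u.1) * (w.2 - v.2) - (v.2 - u.2) * (w.1 - v.1)) ^ 2
      - (v.1 - u.1) ^ 3 * (w.1 - v.1)) *
  (4 * ((v.1 - u.1) ^ 3 * (w.1 - v.1))
      - ((v.1 - u.1) * (w.2 - v.2) - (v.2 - u.2) * (w.1 - v.1)) ^ 2)

/-- `i` is the highest binary digit at which `u` and `v` differ, and `u < v` -/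
def Top (u v i : ℕ) : Prop :=
  u.testBit i = false ∧ v.testBit i = true ∧ ∀ l, i < l → u.testBit l = v.testBit l

/-- the points -/
noncomputable def pt (M : ℕ) (K s : ℕ → ℝ) (x : ℕ) : ℝ × ℝ :=
  (∑ i ∈ range M, (if x.testBit i then K i else 0),
   ∑ i ∈ range M, (if x.testBit i then K i * s i else 0))

noncomputable def rho (K s : ℕ → ℝ) (i j : ℕ) : ℝ := (s i - s j) ^ 2 * K j / K i

open Classical in
/-- number of `G`-independent subsets of a finite set of levels -/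
noncomputable def indc (G : ℕ → ℕ → Prop) (W : Finset ℕ) : ℕ :=
  (W.powerset.filter (fun I => ∀ i ∈ I, ∀ j ∈ I, j < i → ¬ G i j)).card

structure LevelSys (M : ℕ) (K s : ℕ → ℝ) (G : ℕ → ℕ → Prop) : Prop where
  pos : ∀ i < M, 0 < K i
  sep : ∀ l i, l < i → i < M → 1 ≤ |s l - s i|
  grow : ∀ l i, l < i → i < M → 100 * (M : ℝ) ^ 2 * (K l * |s l - s i|) ≤ K i
  edge : ∀ l i, l < i → i < M → G i l → 1 / 2 ≤ rho K s i l ∧ rho K s i l ≤ 2
  nonedge : ∀ l i, l < i → i < M → ¬ G i l → rho K s i l < 1 / 8 ∨ 8 < rho K s i l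
  tri : ∀ i j k, k < j → j < i → i < M → G i j → G j k → G i k → False

/-- value of an integer vector in base `P` -/
def ev {ι : Type} [Fintype ι] (P : ℕ) (rk : ι → ℕ) (c : ι → ℤ) : ℤ := ∑ ℓ, c ℓ * (P : ℤ) ^ rk ℓ

/-- position of a level -/
def kap {ι : Type} [Fintype ι] {N : ℕ} (P : ℕ) (rk : ι → ℕ) (y : ι → Fin N) : ℕ :=
  ∑ ℓ, (y ℓ : ℕ) * P ^ rk ℓ

/-- parities of a level -/
def bpar {ι : Type} {N : ℕ} (y : ι → Fin N) : ι → ZMod 2 := fun ℓ => ((y ℓ : ℕ) : ZMod 2)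

/-- exponent belonging to the coordinate `ℓ` at the level `y` -/
def eexp {ι : Type} [Fintype ι] {N : ℕ} (P : ℕ) (rk : ι → ℕ)
    (V : ι → (ι → ZMod 2) → ι → ℤ) (y : ι → Fin N) (ℓ : ι) : ℕ :=
  (ev P rk (V ℓ (bpar y))).toNat

noncomputable def slope {ι : Type} [Fintype ι] {N : ℕ} (Λ : ℝ) (P : ℕ) (rk : ι → ℕ)
    (V : ι → (ι → ZMod 2) → ι → ℤ) (y : ι → Fin N) : ℝ :=
  ∑ ℓ, ((y ℓ : ℕ) : ℝ) * Λ ^ eexp P rk V y ℓ

/-- adjacency of levels: `y` is obtained from `y'` by a move -/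
def GG {ι : Type} {N : ℕ} (V : ι → (ι → ZMod 2) → ι → ℤ) (y y' : ι → Fin N) : Prop :=
  ∃ ℓ, ∀ ℓ', ((y ℓ' : ℕ) : ℤ) - ((y' ℓ' : ℕ) : ℤ) = V ℓ (bpar y') ℓ'

/-- structural validity of a system of moves -/
structure Valid1 {ι : Type} (rk : ι → ℕ) (V : ι → (ι → ZMod 2) → ι → ℤ) : Prop where
  inj : Function.Injective rk
  self : ∀ ℓ q, V ℓ q ℓ = 1
  top : ∀ ℓ q ℓ', rk ℓ < rk ℓ' → V ℓ q ℓ' = 0
  abs : ∀ ℓ q ℓ', |V ℓ q ℓ'| ≤ 1
  dep : ∀ ℓ q q', (∀ ℓ', rk ℓ < rk ℓ' → q ℓ' = q' ℓ') → V ℓ q = V ℓ q'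

/-- `ℓ` is the top coordinate at which `y, y'` differ -/
def TD {ι : Type} {N : ℕ} (rk : ι → ℕ) (y y' : ι → Fin N) (ℓ : ι) : Prop :=
  y ℓ ≠ y' ℓ ∧ ∀ ℓ', rk ℓ < rk ℓ' → y ℓ' = y' ℓ'

/-- `f` vanishes at one of the ends of every move (`e` a generator, `p` the parity) -/
def Ind1 {ι A : Type} [AddCommGroup A] (V : ι → (ι → ZMod 2) → ι → ℤ) (e : A) (p : A →+ ZMod 2)
    (f : (ι → A) → ℝ) : Prop :=
  ∀ x ℓ, f x * f (fun i => x i + V ℓ (fun j => p (x j)) i • e) = 0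

/-- every function with values in `[0,1]` supported on an independent set has average at most `c` -/
def Small {ι : Type} [Fintype ι] [DecidableEq ι] (V : ι → (ι → ZMod 2) → ι → ℤ) (c : ℝ) : Prop :=
  ∀ (A : Type) [AddCommGroup A] [Fintype A] (e : A) (p : A →+ ZMod 2), p e = 1 →
    ∀ f : (ι → A) → ℝ, (∀ x, 0 ≤ f x ∧ f x ≤ 1) → Ind1 V e p f → 𝔼 x, f x ≤ c

/-- the value of `f` at three points of the plane -/
noncomputable def evalAt (f : MvPolynomial (Fin 6) ℝ) (a b c : ℝ × ℝ) : ℝ :=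
  MvPolynomial.eval ![a.1, a.2, b.1, b.2, c.1, c.2] f

/-- the set `{v i : i ∈ S}` is a clique -/
def IsClq {N : ℕ} (f : MvPolynomial (Fin 6) ℝ) (v : Fin N → ℝ × ℝ) (S : Finset (Fin N)) : Prop :=
  ∀ i ∈ S, ∀ j ∈ S, ∀ k ∈ S, i < j → j < k → 0 ≤ evalAt f (v i) (v j) (v k)

/-- the set `{v i : i ∈ S}` is independent -/
def IsInd {N : ℕ} (f : MvPolynomial (Fin 6) ℝ) (v : Fin N → ℝ × ℝ) (S : Finset (Fin N)) : Prop :=
  ∀ i ∈ S, ∀ j ∈ S, ∀ k ∈ S, i < j → j < k → ¬ 0 ≤ evalAt f (v i) (v j) (v k)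

/-- every sequence of `N` distinct points has an `s`-clique or an independent `n`-set -/
def Arrow (f : MvPolynomial (Fin 6) ℝ) (s n N : ℕ) : Prop :=
  ∀ v : Fin N → ℝ × ℝ, Function.Injective v →
    (∃ S : Finset (Fin N), S.card = s ∧ IsClq f v S) ∨
    (∃ S : Finset (Fin N), S.card = n ∧ IsInd f v S)

/-- the polynomial -/
noncomputable def fpoly : MvPolynomial (Fin 6) ℝ :=
  (4 * ((MvPolynomial.X 2 - MvPolynomial.X 0) * (MvPolynomial.X 5 - MvPolynomial.X 3)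
        - (MvPolynomial.X 3 - MvPolynomial.X 1) * (MvPolynomial.X 4 - MvPolynomial.X 2)) ^ 2
      - (MvPolynomial.X 2 - MvPolynomial.X 0) ^ 3 * (MvPolynomial.X 4 - MvPolynomial.X 2)) *
  (4 * ((MvPolynomial.X 2 - MvPolynomial.X 0) ^ 3 * (MvPolynomial.X 4 - MvPolynomial.X 2))
      - ((MvPolynomial.X 2 - MvPolynomial.X 0) * (MvPolynomial.X 5 - MvPolynomial.X 3)
        - (MvPolynomial.X 3 - MvPolynomial.X 1) * (MvPolynomial.X 4 - MvPolynomial.X 2)) ^ 2)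

/-- the Ramsey number -/
noncomputable def RR (f : MvPolynomial (Fin 6) ℝ) (s n : ℕ) : ℕ := sInf {N | Arrow f s n N}

end R3B
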