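import Pool.Agent.Helper850.RB.Defs

set_option autoImplicit false

namespace R3B
open Finset BigOperators


theorem digit_bound {ι : Type} [Fintype ι] (P : ℕ) (hP : 2 ≤ P) (rk : ι → ℕ)
    (hrk : Function.Injective rk) (c : ι → ℤ) (B : ℤ) (hB : 0 ≤ B) (r : ℕ) (hc : ∀ ℓ, |c ℓ| ≤ B)
    (hc0 : ∀ ℓ, r ≤ rk ℓ → c ℓ = 0) :
    ((P : ℤ) - 1) * |ev P rk c| ≤ B * ((P : ℤ) ^ r - 1) := by
  classical
  have hP0 : (0 : ℤ) ≤ (P : ℤ) := Int.natCast_nonneg P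
  have h1 : |ev P rk c| ≤ ∑ ℓ ∈ univ.filter (fun ℓ => rk ℓ < r), B * (P : ℤ) ^ rk ℓ := by
    unfold ev
    rw [Finset.sum_filter]
    refine (Finset.abs_sum_le_sum_abs _ _).trans (Finset.sum_le_sum fun ℓ _ => ?_)
    rw [abs_mul, abs_of_nonneg (pow_nonneg hP0 _)]
    split_ifs with h
    · exact mul_le_mul_of_nonneg_right (hc ℓ) (pow_nonneg hP0 _)
    · rw [hc0 ℓ (not_lt.1 h)]
      simp
  have h2 : ∑ ℓ ∈ univ.filter (fun ℓ => rk ℓ < r), B * (P : ℤ) ^ rk ℓ ≤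
      ∑ j ∈ range r, B * (P : ℤ) ^ j := by
    rw [← Finset.sum_image (f := fun j => B * (P : ℤ) ^ j) (g := rk)
      (s := univ.filter (fun ℓ => rk ℓ < r)) (fun a _ b _ h => hrk h)]
    refine Finset.sum_le_sum_of_subset_of_nonneg ?_ fun j _ _ => mul_nonneg hB (pow_nonneg hP0 _)
    intro j hj
    obtain ⟨ℓ, hℓ, rfl⟩ := Finset.mem_image.1 hj
    exact Finset.mem_range.2 (Finset.mem_filter.1 hℓ).2
  have h3 : ((P : ℤ) - 1) * ∑ j ∈ range r, B * (P : ℤ) ^ j = B * ((P : ℤ) ^ r - 1) := by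
    rw [← Finset.mul_sum, ← mul_geom_sum]
    ring
  rw [← h3]
  refine mul_le_mul_of_nonneg_left (h1.trans h2) ?_
  have : (2 : ℤ) ≤ P := by exact_mod_cast hP
  linarith

end R3B
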