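import Pool.Agent.Helper850.RB.Defs
import Pool.Agent.Helper850.RB.P_digit_bound

set_option autoImplicit false

namespace R3B
open Finset BigOperators


theorem digit_unique {ι : Type} [Fintype ι] (P : ℕ) (hP : 2 ≤ P) (rk : ι → ℕ)
    (hrk : Function.Injective rk) (c : ι → ℤ) (B : ℤ) (hB : B + 1 ≤ P) (hc : ∀ ℓ, |c ℓ| ≤ B)
    (h : ev P rk c = 0) : c = 0 := by
  classical
  by_contra hne
  obtain ⟨ℓ₀, hℓ₀⟩ : ∃ ℓ, c ℓ ≠ 0 := by
    by_contra hcon
    push Not at hcon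
    exact hne (funext hcon)
  obtain ⟨ℓ, hℓm, hmax⟩ := Finset.exists_max_image (univ.filter fun ℓ => c ℓ ≠ 0) rk
    ⟨ℓ₀, by simp [hℓ₀]⟩
  have hℓ : c ℓ ≠ 0 := by simpa using hℓm
  have hB0 : 0 ≤ B := (abs_nonneg _).trans (hc ℓ)
  set c' : ι → ℤ := Function.update c ℓ 0 with hc'
  have h1 : ev P rk c = c ℓ * (P : ℤ) ^ rk ℓ + ev P rk c' := by
    have h2 : ev P rk c - ev P rk c' = c ℓ * (P : ℤ) ^ rk ℓ := by
      unfold ev
      rw [← Finset.sum_sub_distrib, Finset.sum_eq_single ℓ]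
      · simp [hc']
      · intro b _ hb
        simp [hc', Function.update_of_ne hb]
      · intro hh; exact absurd (mem_univ _) hh
    linarith
  have h3 := digit_bound P hP rk hrk c' B hB0 (rk ℓ) (by
    intro ℓ'
    by_cases e : ℓ' = ℓ
    · subst e; simp [hc', hB0]
    · rw [hc', Function.update_of_ne e]; exact hc ℓ') (by
    intro ℓ' hle
    by_cases e : ℓ' = ℓ
    · subst e; simp [hc']
    · rw [hc', Function.update_of_ne e]
      by_contra hn
      have := hmax ℓ' (by simp [hn])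
      exact e (hrk (le_antisymm this hle)))
  have hP' : (2 : ℤ) ≤ P := by exact_mod_cast hP
  have hpow : (1 : ℤ) ≤ (P : ℤ) ^ rk ℓ := one_le_pow₀ (by linarith)
  have h4 : |ev P rk c'| ≤ (P : ℤ) ^ rk ℓ - 1 := by
    have h5 : ((P : ℤ) - 1) * |ev P rk c'| ≤ ((P : ℤ) - 1) * ((P : ℤ) ^ rk ℓ - 1) :=
      h3.trans (mul_le_mul_of_nonneg_right (by linarith) (by linarith))
    exact le_of_mul_le_mul_left h5 (by linarith)
  have h6 : ev P rk c' = -(c ℓ * (P : ℤ) ^ rk ℓ) := by linarith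
  rw [h6, abs_neg, abs_mul, abs_of_nonneg (show (0 : ℤ) ≤ (P : ℤ) ^ rk ℓ by linarith)] at h4
  have h7 : 1 ≤ |c ℓ| := Int.one_le_abs hℓ
  nlinarith

end R3B
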