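import Pool.Agent.Helper850.RB.Defs
import Pool.Agent.Helper850.RB.P_digit_bound

set_option autoImplicit false

namespace R3B
open Finset BigOperators


theorem e_bounds {ι : Type} [Fintype ι] [DecidableEq ι] (P : ℕ) (hP : 8 ≤ P) (rk : ι → ℕ)
    (V : ι → (ι → ZMod 2) → ι → ℤ) (hV : Valid1 rk V) (ℓ : ι) (q : ι → ZMod 2) :
    6 * (P : ℤ) ^ rk ℓ + 1 ≤ 7 * ev P rk (V ℓ q) ∧
      7 * ev P rk (V ℓ q) ≤ 8 * (P : ℤ) ^ rk ℓ - 1 := by
  have hP' : (8 : ℤ) ≤ P := by exact_mod_cast hP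
  obtain ⟨c', hc'⟩ : ∃ c', c' = Function.update (V ℓ q) ℓ 0 := ⟨_, rfl⟩
  have hs : ev P rk (V ℓ q) = (P : ℤ) ^ rk ℓ + ev P rk c' := by
    unfold ev
    rw [← Finset.add_sum_erase _ _ (Finset.mem_univ ℓ), hV.self, one_mul,
      ← Finset.add_sum_erase _ (fun ℓ' => c' ℓ' * (P : ℤ) ^ rk ℓ') (Finset.mem_univ ℓ)]
    have h0 : c' ℓ = 0 := by rw [hc', Function.update_self]
    rw [h0, zero_mul, zero_add]
    congr 1
    apply Finset.sum_congr rfl
    intro x hx
    rw [hc', Function.update_of_ne (Finset.ne_of_mem_erase hx)]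
  have hb := digit_bound P (by omega) rk hV.inj c' 1 (by norm_num) (rk ℓ) (by
    intro x
    rw [hc']
    by_cases hx : x = ℓ
    · rw [hx, Function.update_self]; simp
    · rw [Function.update_of_ne hx]; exact hV.abs ℓ q x) (by
    intro x hx
    rw [hc']
    by_cases hx' : x = ℓ
    · rw [hx', Function.update_self]
    · rw [Function.update_of_ne hx']
      apply hV.top
      exact lt_of_le_of_ne hx (fun h => hx' (hV.inj h.symm)))
  have h7 : 7 * |ev P rk c'| ≤ (P : ℤ) ^ rk ℓ - 1 := by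
    have h1 : 7 * |ev P rk c'| ≤ ((P : ℤ) - 1) * |ev P rk c'| :=
      mul_le_mul_of_nonneg_right (by linarith) (abs_nonneg _)
    linarith
  have h8 := le_abs_self (ev P rk c')
  have h9 := neg_abs_le (ev P rk c')
  rw [hs]
  constructor <;> linarith

end R3B
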