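import Pool.Agent.Helper850.RB.Defs
import Pool.Agent.Helper850.RB.P_digit_unique
import Pool.Agent.Helper850.RB.P_e_bounds

set_option autoImplicit false

namespace R3B
open Finset BigOperators


theorem GG_iff {ι : Type} [Fintype ι] [DecidableEq ι] (N : ℕ) (hN : 2 ≤ N) (rk : ι → ℕ)
    (V : ι → (ι → ZMod 2) → ι → ℤ) (hV : Valid1 rk V)
    (y y' : ι → Fin N) (ℓ : ι) (h : TD rk y y' ℓ) :
    (GG V y y' ↔
      (kap (4 * N) rk y : ℤ) - (kap (4 * N) rk y' : ℤ) = (eexp (4 * N) rk V y ℓ : ℤ)) ∧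
    (GG V y y' → ((y ℓ : ℕ) : ℤ) - ((y' ℓ : ℕ) : ℤ) = 1) := by
  have hdep : V ℓ (bpar y) = V ℓ (bpar y') := by
    apply hV.dep
    intro ℓ' hl
    unfold bpar
    rw [h.2 ℓ' hl]
  have hpos : (eexp (4 * N) rk V y ℓ : ℤ) = ev (4 * N) rk (V ℓ (bpar y')) := by
    unfold eexp
    rw [hdep]
    have h1 := (e_bounds (4 * N) (by omega) rk V hV ℓ (bpar y')).1
    have h2 : (0 : ℤ) ≤ ((4 * N : ℕ) : ℤ) ^ rk ℓ := by positivity
    exact Int.toNat_of_nonneg (by omega)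
  have hkap : (kap (4 * N) rk y : ℤ) - (kap (4 * N) rk y' : ℤ) =
      ev (4 * N) rk (fun ℓ' => ((y ℓ' : ℕ) : ℤ) - ((y' ℓ' : ℕ) : ℤ)) := by
    unfold kap ev
    push_cast
    rw [← Finset.sum_sub_distrib]
    apply Finset.sum_congr rfl
    intro i _
    ring
  have hfwd : GG V y y' → ∀ ℓ', ((y ℓ' : ℕ) : ℤ) - ((y' ℓ' : ℕ) : ℤ) = V ℓ (bpar y') ℓ' := by
    rintro ⟨ℓ0, h0⟩
    have h1 := h0 ℓ0
    rw [hV.self] at h1
    have h2 : ¬ rk ℓ < rk ℓ0 := by
      intro hlt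
      have := h.2 ℓ0 hlt
      rw [this] at h1
      omega
    have h3 : ¬ rk ℓ0 < rk ℓ := by
      intro hlt
      have h4 := h0 ℓ
      rw [hV.top ℓ0 _ ℓ hlt] at h4
      apply h.1
      apply Fin.ext
      omega
    have h5 : ℓ = ℓ0 := hV.inj (by omega)
    rw [h5]
    exact h0
  refine ⟨⟨?_, ?_⟩, ?_⟩
  · intro hG
    rw [hkap, hpos]
    congr 1
    funext ℓ'
    exact hfwd hG ℓ'
  · intro he
    rw [hkap, hpos] at he
    have h6 : (fun ℓ' => ((y ℓ' : ℕ) : ℤ) - ((y' ℓ' : ℕ) : ℤ) - V ℓ (bpar y') ℓ') = 0 := by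
      apply digit_unique (4 * N) (by omega) rk hV.inj _ (N : ℤ) (by push_cast; omega)
      · intro i
        have h7 := hV.abs ℓ (bpar y') i
        have h8 := (y i).2
        have h9 := (y' i).2
        rw [abs_le] at h7 ⊢
        constructor
        · omega
        · omega
      · have : ev (4 * N) rk (fun ℓ' => ((y ℓ' : ℕ) : ℤ) - ((y' ℓ' : ℕ) : ℤ) - V ℓ (bpar y') ℓ') =
            ev (4 * N) rk (fun ℓ' => ((y ℓ' : ℕ) : ℤ) - ((y' ℓ' : ℕ) : ℤ)) -
              ev (4 * N) rk (V ℓ (bpar y')) := by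
          unfold ev
          rw [← Finset.sum_sub_distrib]
          apply Finset.sum_congr rfl
          intro i _
          ring
        rw [this, he, sub_self]
    refine ⟨ℓ, fun ℓ' => ?_⟩
    have := congrFun h6 ℓ'
    simp only [Pi.zero_apply] at this
    linarith
  · intro hG
    rw [hfwd hG ℓ, hV.self]

end R3B
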