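import Pool.Agent.Helper850.RB.Defs

set_option autoImplicit false

namespace R3B
open Finset BigOperators


theorem GG_tri {ι : Type} [Fintype ι] [DecidableEq ι] (N : ℕ) (rk : ι → ℕ)
    (V : ι → (ι → ZMod 2) → ι → ℤ) (hV : Valid1 rk V)
    (y1 y2 y3 : ι → Fin N) (h12 : GG V y1 y2) (h23 : GG V y2 y3) (h13 : GG V y1 y3) : False := by
  obtain ⟨l, hl⟩ := h12
  obtain ⟨m, hm⟩ := h23
  obtain ⟨n, hn⟩ := h13
  have hsum : ∀ k, V n (bpar y3) k = V l (bpar y2) k + V m (bpar y3) k := by
    intro k
    rw [← hl k, ← hm k, ← hn k]
    ring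
  rcases lt_trichotomy (rk m) (rk l) with h | h | h
  · have h1 : V n (bpar y3) l = 1 := by
      rw [hsum, hV.self, hV.top m _ l h]
      norm_num
    have h2 : rk n = rk l := by
      rcases lt_trichotomy (rk n) (rk l) with h3 | h3 | h3
      · have := hV.top n (bpar y3) l h3
        omega
      · exact h3
      · have h4 := hsum n
        rw [hV.self, hV.top l _ n h3, hV.top m _ n (h.trans h3)] at h4
        omega
    have h3 : n = l := hV.inj h2
    subst h3
    have h4 : V n (bpar y2) = V n (bpar y3) := by
      apply hV.dep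
      intro k hk
      have h5 := hm k
      rw [hV.top m _ k (h.trans hk)] at h5
      have h6 : ((y2 k : ℕ)) = (y3 k : ℕ) := by omega
      unfold bpar
      rw [h6]
    have h5 := hsum m
    rw [h4, hV.self m] at h5
    omega
  · have h1 : m = l := hV.inj h
    subst h1
    have h2 := hsum m
    rw [hV.self m, hV.self m] at h2
    have h3 := hV.abs n (bpar y3) m
    rw [h2] at h3
    norm_num at h3
  · have h1 : V n (bpar y3) m = 1 := by
      rw [hsum, hV.self, hV.top l _ m h]
      norm_num
    have h2 : rk n = rk m := by
      rcases lt_trichotomy (rk n) (rk m) with h3 | h3 | h3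
      · have := hV.top n (bpar y3) m h3
        omega
      · exact h3
      · have h4 := hsum n
        rw [hV.self, hV.top m _ n h3, hV.top l _ n (h.trans h3)] at h4
        omega
    have h3 : n = m := hV.inj h2
    subst h3
    have h5 := hsum l
    rw [hV.self l] at h5
    omega

end R3B
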