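import Pool.Agent.Helper850.RB.Defs

set_option autoImplicit false

namespace R3B
open Finset BigOperators


theorem ramsey2_step {S : Finset ℕ} {x : ℕ} (hx : x ∈ S) (hmin : ∀ y ∈ S, x ≤ y)
    (E : ℕ → ℕ → Prop) {T : Finset ℕ} (hT : T ⊆ S) (hxT : x ∉ T)
    (h1 : ∀ j ∈ T, E x j) (h2 : ∀ i ∈ T, ∀ j ∈ T, i < j → E i j) {s : ℕ} (hs : T.card = s) :
    ∃ T' ⊆ S, T'.card = s + 1 ∧ ∀ i ∈ T', ∀ j ∈ T', i < j → E i j := by
  refine ⟨insert x T, ?_, ?_, ?_⟩
  · intro y hy
    rw [Finset.mem_insert] at hy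
    rcases hy with rfl | hy
    · exact hx
    · exact hT hy
  · rw [Finset.card_insert_of_notMem hxT, hs]
  · intro i hi j hj hij
    rw [Finset.mem_insert] at hi hj
    rcases hj with rfl | hj
    · rcases hi with rfl | hi
      · exact absurd hij (lt_irrefl _)
      · have := hmin i (hT hi)
        omega
    · rcases hi with rfl | hi
      · exact h1 j hj
      · exact h2 i hi j hj hij

theorem ramsey2 (s t : ℕ) : ∃ N : ℕ, ∀ (S : Finset ℕ), N ≤ S.card → ∀ E : ℕ → ℕ → Prop,
    (∃ T ⊆ S, T.card = s ∧ ∀ i ∈ T, ∀ j ∈ T, i < j → E i j) ∨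
    (∃ T ⊆ S, T.card = t ∧ ∀ i ∈ T, ∀ j ∈ T, i < j → ¬ E i j) := by
  classical
  induction s generalizing t with
  | zero =>
    exact ⟨0, fun S _ E => Or.inl ⟨∅, Finset.empty_subset _, rfl, by simp⟩⟩
  | succ s ih =>
    induction t with
    | zero =>
      exact ⟨0, fun S _ E => Or.inr ⟨∅, Finset.empty_subset _, rfl, by simp⟩⟩
    | succ t iht =>
      obtain ⟨N1, hN1⟩ := ih (t + 1)
      obtain ⟨N2, hN2⟩ := iht
      refine ⟨N1 + N2 + 1, ?_⟩
      intro S hS E
      have hne : S.Nonempty := by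
        rw [← Finset.card_pos]
        omega
      obtain ⟨x, hx⟩ : ∃ x, x = S.min' hne := ⟨_, rfl⟩
      have hxS : x ∈ S := by rw [hx]; exact S.min'_mem hne
      have hmin : ∀ y ∈ S, x ≤ y := fun y hy => by rw [hx]; exact S.min'_le y hy
      have hc : (S.erase x).card = S.card - 1 := Finset.card_erase_of_mem hxS
      have hsum := Finset.card_filter_add_card_filter_not (s := S.erase x) (fun y => E x y)
      have hsub : ∀ {p : ℕ → Prop} [DecidablePred p], (S.erase x).filter p ⊆ S :=
        fun {p} _ => (Finset.filter_subset _ _).trans (Finset.erase_subset _ _)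
      have hnot : ∀ {p : ℕ → Prop} [DecidablePred p] {T : Finset ℕ},
          T ⊆ (S.erase x).filter p → x ∉ T := by
        intro p _ T hT hxT
        have := hT hxT
        rw [Finset.mem_filter, Finset.mem_erase] at this
        exact this.1.1 rfl
      by_cases hA : N1 ≤ ((S.erase x).filter (fun y => E x y)).card
      · rcases hN1 _ hA E with ⟨T, hT, hTc, hTE⟩ | ⟨T, hT, hTc, hTE⟩
        · left
          exact ramsey2_step hxS hmin E (hT.trans hsub) (hnot hT)
            (fun j hj => (Finset.mem_filter.1 (hT hj)).2) hTE hTc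
        · right
          exact ⟨T, hT.trans hsub, hTc, hTE⟩
      · have hB : N2 ≤ ((S.erase x).filter (fun y => ¬ E x y)).card := by omega
        rcases hN2 _ hB E with ⟨T, hT, hTc, hTE⟩ | ⟨T, hT, hTc, hTE⟩
        · left
          exact ⟨T, hT.trans hsub, hTc, hTE⟩
        · right
          exact ramsey2_step hxS hmin (fun i j => ¬ E i j) (hT.trans hsub) (hnot hT)
            (fun j hj => (Finset.mem_filter.1 (hT hj)).2) hTE hTc

end R3B
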