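import Pool.Agent.Helper850.RB.Defs
import Pool.Agent.Helper850.RB.P_ramsey2

set_option autoImplicit false

namespace R3B
open Finset BigOperators


theorem r3_aux (m : ℕ) : ∀ r : ℕ, ∃ N : ℕ, ∀ S : Finset ℕ, N ≤ S.card → ∀ E : ℕ → ℕ → ℕ → Prop,
    ∃ T R : Finset ℕ, T ⊆ S ∧ R ⊆ S ∧ T.card = m ∧ r ≤ R.card ∧ (∀ i ∈ T, ∀ k ∈ R, i < k) ∧
      ∀ i ∈ T, ∀ j ∈ T, i < j → ∀ k ∈ R ∪ T, ∀ k' ∈ R ∪ T, j < k → j < k' →
        (E i j k ↔ E i j k') := by
  classical
  induction m with
  | zero =>
    intro r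
    refine ⟨r, fun S hS E => ⟨∅, S, Finset.empty_subset _, Finset.Subset.refl _, rfl, hS, ?_, ?_⟩⟩
    · intro i hi
      exact absurd hi (Finset.notMem_empty i)
    · intro i hi
      exact absurd hi (Finset.notMem_empty i)
  | succ m ih =>
    intro r
    obtain ⟨N, hN⟩ := ih (2 ^ m * r + 1)
    refine ⟨N, fun S hS E => ?_⟩
    obtain ⟨T, R, hT, hR, hTc, hRc, hTR, hE⟩ := hN S hS E
    have hne : R.Nonempty := Finset.card_pos.1 (by omega)
    obtain ⟨x, hxd⟩ : ∃ x, x = R.min' hne := ⟨_, rfl⟩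
    have hxR : x ∈ R := by
      rw [hxd]
      exact Finset.min'_mem R hne
    have hxmin : ∀ k ∈ R, x ≤ k := by
      intro k hk
      rw [hxd]
      exact Finset.min'_le R k hk
    have hxT : x ∉ T := fun h => lt_irrefl _ (hTR x h x hxR)
    obtain ⟨A, hA, hAc⟩ := Finset.exists_le_card_fiber_of_mul_le_card_of_maps_to
      (s := R.erase x) (t := T.powerset) (f := fun y => T.filter (fun i => E i x y)) (n := r)
      (fun y _ => Finset.mem_powerset.2 (Finset.filter_subset _ _)) ⟨∅, by simp⟩ (by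
        rw [Finset.card_powerset, hTc, Finset.card_erase_of_mem hxR]
        omega)
    obtain ⟨R2, hR2⟩ : ∃ R2 : Finset ℕ, R2 =
        (R.erase x).filter (fun y => T.filter (fun i => E i x y) = A) := ⟨_, rfl⟩
    rw [← hR2] at hAc
    have hR2m : ∀ y ∈ R2, y ∈ R ∧ x < y ∧ T.filter (fun i => E i x y) = A := by
      intro y hy
      rw [hR2, Finset.mem_filter, Finset.mem_erase] at hy
      exact ⟨hy.1.2, lt_of_le_of_ne (hxmin y hy.1.2) (Ne.symm hy.1.1), hy.2⟩
    refine ⟨insert x T, R2, Finset.insert_subset (hR hxR) hT, fun y hy => hR (hR2m y hy).1, ?_,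
      hAc, ?_, ?_⟩
    · rw [Finset.card_insert_of_notMem hxT, hTc]
    · intro i hi k hk
      rcases Finset.mem_insert.1 hi with rfl | hi
      · exact (hR2m k hk).2.1
      · exact hTR i hi k (hR2m k hk).1
    · intro i hi j hj hij k hk k' hk' hjk hjk'
      rcases Finset.mem_insert.1 hj with rfl | hj
      · -- `j = x`
        have hiT : i ∈ T := by
          rcases Finset.mem_insert.1 hi with h | h
          · omega
          · exact h
        have hkey : ∀ y ∈ R2 ∪ insert j T, j < y → y ∈ R2 := by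
          intro y hy hjy
          rcases Finset.mem_union.1 hy with h | h
          · exact h
          · rcases Finset.mem_insert.1 h with h | h
            · omega
            · have := hTR y h j hxR
              omega
        have h1 := (hR2m k (hkey k hk hjk)).2.2
        have h2 := (hR2m k' (hkey k' hk' hjk')).2.2
        have h3 : i ∈ T.filter (fun i => E i j k) ↔ i ∈ T.filter (fun i => E i j k') := by
          rw [h1, h2]
        rw [Finset.mem_filter, Finset.mem_filter] at h3
        constructor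
        · intro h4
          exact (h3.1 ⟨hiT, h4⟩).2
        · intro h4
          exact (h3.2 ⟨hiT, h4⟩).2
      · have hiT : i ∈ T := by
          rcases Finset.mem_insert.1 hi with h | h
          · have := hTR j hj x hxR
            omega
          · exact h
        have hsub : ∀ y ∈ R2 ∪ insert x T, y ∈ R ∪ T := by
          intro y hy
          rcases Finset.mem_union.1 hy with h | h
          · exact Finset.mem_union_left _ (hR2m y h).1
          · rcases Finset.mem_insert.1 h with h | h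
            · rw [h]
              exact Finset.mem_union_left _ hxR
            · exact Finset.mem_union_right _ h
        exact hE i hiT j hj hij k (hsub k hk) k' (hsub k' hk') hjk hjk'

theorem ramsey3 (s t : ℕ) : ∃ N : ℕ, ∀ (S : Finset ℕ), N ≤ S.card → ∀ E : ℕ → ℕ → ℕ → Prop,
    (∃ T ⊆ S, T.card = s ∧ ∀ i ∈ T, ∀ j ∈ T, ∀ k ∈ T, i < j → j < k → E i j k) ∨
    (∃ T ⊆ S, T.card = t ∧ ∀ i ∈ T, ∀ j ∈ T, ∀ k ∈ T, i < j → j < k → ¬ E i j k) := by
  classical
  obtain ⟨N2, hN2⟩ := ramsey2 s t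
  obtain ⟨N, hN⟩ := r3_aux (N2 + 1) 0
  refine ⟨N, fun S hS E => ?_⟩
  obtain ⟨T, R, hT, -, hTc, -, -, hE⟩ := hN S hS E
  have hne : T.Nonempty := Finset.card_pos.1 (by omega)
  obtain ⟨M, hMd⟩ : ∃ M, M = T.max' hne := ⟨_, rfl⟩
  have hMT : M ∈ T := by
    rw [hMd]
    exact Finset.max'_mem T hne
  have hlt : ∀ y ∈ T.erase M, y < M := by
    intro y hy
    rw [Finset.mem_erase] at hy
    have h1 : y ≤ M := by
      rw [hMd]
      exact Finset.le_max' T y hy.2
    omega
  have hT' : ∀ y ∈ T.erase M, y ∈ T := fun y hy => Finset.mem_of_mem_erase hy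
  have hkey : ∀ i ∈ T.erase M, ∀ j ∈ T.erase M, ∀ k ∈ T.erase M, i < j → j < k →
      (E i j k ↔ E i j M) := by
    intro i hi j hj k hk hij hjk
    exact hE i (hT' i hi) j (hT' j hj) hij k (Finset.mem_union_right _ (hT' k hk)) M
      (Finset.mem_union_right _ hMT) hjk (hlt j hj)
  have hcard : N2 ≤ (T.erase M).card := by
    rw [Finset.card_erase_of_mem hMT, hTc]
    omega
  rcases hN2 (T.erase M) hcard (fun i j => E i j M) with ⟨U, hU, hUc, hUE⟩ | ⟨U, hU, hUc, hUE⟩
  · refine Or.inl ⟨U, fun y hy => hT (hT' y (hU hy)), hUc, fun i hi j hj k hk hij hjk => ?_⟩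
    exact (hkey i (hU hi) j (hU hj) k (hU hk) hij hjk).2 (hUE i hi j hj hij)
  · refine Or.inr ⟨U, fun y hy => hT (hT' y (hU hy)), hUc, fun i hi j hj k hk hij hjk h => ?_⟩
    exact hUE i hi j hj hij ((hkey i (hU hi) j (hU hj) k (hU hk) hij hjk).1 h)

end R3B
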