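import Pool.Agent.Helper850.RB.Defs
import Pool.Agent.Helper850.RB.P_ramsey3

set_option autoImplicit false

namespace R3B
open Finset BigOperators


theorem arrow_transport {N : ℕ} (T : Finset ℕ) (hT : T ⊆ Finset.range N) :
    (Finset.univ.filter (fun i : Fin N => (i : ℕ) ∈ T)).card = T.card := by
  classical
  have h : (Finset.univ.filter (fun i : Fin N => (i : ℕ) ∈ T)).image (fun i : Fin N => (i : ℕ))
      = T := by
    ext x
    simp only [Finset.mem_image, Finset.mem_filter, Finset.mem_univ, true_and]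
    constructor
    · rintro ⟨i, hi, rfl⟩
      exact hi
    · intro hx
      exact ⟨⟨x, Finset.mem_range.mp (hT hx)⟩, hx, rfl⟩
  rw [← Finset.card_image_of_injective _ Fin.val_injective, h]

theorem arrow_exists (f : MvPolynomial (Fin 6) ℝ) (s n : ℕ) : ∃ N, Arrow f s n N := by
  classical
  obtain ⟨N, hN⟩ := ramsey3 s n
  refine ⟨N, ?_⟩
  intro v _
  have hc : N ≤ (Finset.range N).card := by simp
  rcases hN (Finset.range N) hc (fun i j k => ∀ (hi : i < N) (hj : j < N) (hk : k < N),
    0 ≤ evalAt f (v ⟨i, hi⟩) (v ⟨j, hj⟩) (v ⟨k, hk⟩)) with ⟨T, hT, hcard, hE⟩ | ⟨T, hT, hcard, hE⟩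
  · left
    refine ⟨Finset.univ.filter (fun i : Fin N => (i : ℕ) ∈ T), ?_, ?_⟩
    · rw [arrow_transport T hT, hcard]
    · intro i hi j hj k hk hij hjk
      simp only [Finset.mem_filter, Finset.mem_univ, true_and] at hi hj hk
      exact hE i hi j hj k hk hij hjk i.2 j.2 k.2
  · right
    refine ⟨Finset.univ.filter (fun i : Fin N => (i : ℕ) ∈ T), ?_, ?_⟩
    · rw [arrow_transport T hT, hcard]
    · intro i hi j hj k hk hij hjk h
      simp only [Finset.mem_filter, Finset.mem_univ, true_and] at hi hj hk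
      exact hE i hi j hj k hk hij hjk (fun _ _ _ => h)

end R3B
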