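import Pool.Agent.Helper850.RB.Defs

set_option autoImplicit false

namespace R3B
open Finset BigOperators


private theorem val_add_box {n : ℕ} [NeZero n] (a : ZMod n) (v : ℤ) (hv : |v| ≤ 1)
    (h1 : 1 ≤ a.val) (h2 : a.val ≤ n - 2) (hn : 2 ≤ n) :
    (((a + v • (1 : ZMod n)).val : ℕ) : ℤ) = (a.val : ℤ) + v := by
  have hv' := abs_le.1 hv
  have hnn : 0 ≤ (a.val : ℤ) + v := by
    have : (1 : ℤ) ≤ a.val := by exact_mod_cast h1
    linarith [hv'.1]
  have hlt : ((a.val : ℤ) + v).toNat < n := by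
    have h3 : a.val + 2 ≤ n := by omega
    have h4 : (a.val : ℤ) + 2 ≤ n := by exact_mod_cast h3
    omega
  have key : a + v • (1 : ZMod n) = ((((a.val : ℤ) + v).toNat : ℕ) : ZMod n) := by
    have e1 : ((((a.val : ℤ) + v).toNat : ℕ) : ZMod n) = ((((a.val : ℤ) + v).toNat : ℤ) : ZMod n) := by
      push_cast; rfl
    rw [e1, Int.toNat_of_nonneg hnn]
    push_cast
    rw [ZMod.natCast_zmod_val]
    simp
  rw [key, ZMod.val_natCast_of_lt hlt, Int.toNat_of_nonneg hnn]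

private theorem slab_card {ι : Type} [Fintype ι] [DecidableEq ι] (n : ℕ) (ℓ : ι) (B : Finset (Fin n)) :
    ((Fintype.piFinset (fun i : ι => if i = ℓ then B else Finset.univ)).card : ℝ) * n
      = B.card * (n : ℝ) ^ Fintype.card ι := by
  rw [Fintype.card_piFinset]
  have e1 : (n : ℝ) ^ Fintype.card ι = n * ∏ i ∈ Finset.univ.erase ℓ, (n : ℝ) := by
    have h := Finset.mul_prod_erase Finset.univ (fun _ : ι => (n : ℝ)) (Finset.mem_univ ℓ)
    rw [h]
    simp
  have e2 : ((∏ i : ι, (if i = ℓ then B else (Finset.univ : Finset (Fin n))).card : ℕ) : ℝ)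
      = B.card * ∏ i ∈ Finset.univ.erase ℓ, (n : ℝ) := by
    rw [← Finset.mul_prod_erase Finset.univ _ (Finset.mem_univ ℓ), if_pos rfl]
    push_cast
    congr 1
    refine Finset.prod_congr rfl fun i hi => ?_
    rw [if_neg (Finset.ne_of_mem_erase hi)]
    simp
  rw [e2, e1]
  ring

theorem box {ι : Type} [Fintype ι] [DecidableEq ι] (V : ι → (ι → ZMod 2) → ι → ℤ)
    (habs : ∀ ℓ q ℓ', |V ℓ q ℓ'| ≤ 1) (c : ℝ) (hV : Small V c) (m : ℕ) (hm : 1 ≤ m)
    (J : Finset (ι → Fin (2 * m))) (hJ : ∀ y ∈ J, ∀ y' ∈ J, ¬ GG V y y') :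
    (J.card : ℝ) ≤ (c + (Fintype.card ι : ℝ) / m) * (2 * (m : ℝ)) ^ Fintype.card ι := by
  classical
  haveI : NeZero (2 * m) := ⟨by omega⟩
  have hn2 : 2 ≤ 2 * m := by omega
  set L := Fintype.card ι with hL
  set toY : (ι → ZMod (2 * m)) → (ι → Fin (2 * m)) := fun x ℓ => ⟨(x ℓ).val, ZMod.val_lt _⟩ with htoY
  set f : (ι → ZMod (2 * m)) → ℝ := fun x =>
    if toY x ∈ J ∧ ∀ ℓ, 1 ≤ (x ℓ).val ∧ (x ℓ).val ≤ 2 * m - 2 then 1 else 0 with hf
  set p : ZMod (2 * m) →+ ZMod 2 := (ZMod.castHom (dvd_mul_right 2 m) (ZMod 2)).toAddMonoidHom with hp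
  have hpv : ∀ a : ZMod (2 * m), p a = ((a.val : ℕ) : ZMod 2) := by
    intro a
    show ZMod.castHom (dvd_mul_right 2 m) (ZMod 2) a = _
    rw [ZMod.castHom_apply, ZMod.natCast_val]
  have hE : 𝔼 x, f x ≤ c := by
    refine hV (ZMod (2 * m)) 1 p ?_ f ?_ ?_
    · show ZMod.castHom (dvd_mul_right 2 m) (ZMod 2) 1 = 1
      exact map_one _
    · intro x
      simp only [hf]
      split_ifs <;> norm_num
    · intro x ℓ
      by_contra hne
      obtain ⟨h1, h2⟩ := mul_ne_zero_iff.1 hne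
      have hx : toY x ∈ J ∧ ∀ ℓ, 1 ≤ (x ℓ).val ∧ (x ℓ).val ≤ 2 * m - 2 := by
        by_contra h
        exact h1 (by simp only [hf]; rw [if_neg h])
      have hx' : toY (fun i => x i + V ℓ (fun j => p (x j)) i • (1 : ZMod (2 * m))) ∈ J := by
        by_contra h
        exact h2 (by simp only [hf]; rw [if_neg (fun hh => h hh.1)])
      refine hJ _ hx' _ hx.1 ⟨ℓ, fun ℓ' => ?_⟩
      have hb : (bpar (toY x) : ι → ZMod 2) = fun j => p (x j) := by
        funext j
        rw [hpv]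
        rfl
      rw [hb]
      have hval := val_add_box (x ℓ') (V ℓ (fun j => p (x j)) ℓ') (habs _ _ _) (hx.2 ℓ').1
        (hx.2 ℓ').2 hn2
      show (((x ℓ' + V ℓ (fun j => p (x j)) ℓ' • (1 : ZMod (2 * m))).val : ℕ) : ℤ)
        - (((x ℓ').val : ℕ) : ℤ) = _
      rw [hval]
      ring
  -- interior points
  set Ji := J.filter (fun y => ∀ ℓ, 1 ≤ (y ℓ : ℕ) ∧ (y ℓ : ℕ) ≤ 2 * m - 2) with hJi
  have hcardA : (Fintype.card (ι → ZMod (2 * m)) : ℝ) = (2 * (m : ℝ)) ^ L := by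
    rw [Fintype.card_fun, ZMod.card]
    push_cast
    rfl
  have hpos : (0 : ℝ) < (2 * (m : ℝ)) ^ L := by
    have : (0 : ℝ) < m := by exact_mod_cast hm
    positivity
  have hJic : (Ji.card : ℝ) ≤ c * (2 * (m : ℝ)) ^ L := by
    have h1 : (Ji.card : ℝ) ≤ ∑ x, f x := by
      have e : ∑ x, f x = ((Finset.univ.filter (fun x : ι → ZMod (2 * m) =>
          toY x ∈ J ∧ ∀ ℓ, 1 ≤ (x ℓ).val ∧ (x ℓ).val ≤ 2 * m - 2)).card : ℝ) := by
        simp only [hf]
        rw [Finset.sum_boole]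
      rw [e]
      norm_cast
      refine Finset.card_le_card_of_injOn (fun y ℓ => (((y ℓ : ℕ)) : ZMod (2 * m))) ?_ ?_
      · intro y hy
        have hy' := Finset.mem_filter.1 hy
        have hv : ∀ ℓ, (((y ℓ : ℕ)) : ZMod (2 * m)).val = (y ℓ : ℕ) := fun ℓ =>
          ZMod.val_natCast_of_lt (y ℓ).2
        have ht : toY (fun ℓ => (((y ℓ : ℕ)) : ZMod (2 * m))) = y := by
          funext ℓ
          apply Fin.ext
          exact hv ℓ
        simp only [Finset.coe_filter, Finset.mem_univ, true_and, Set.mem_setOf_eq]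
        refine ⟨by rw [ht]; exact hy'.1, fun ℓ => ?_⟩
        rw [hv ℓ]
        exact hy'.2 ℓ
      · intro y hy y' hy' h
        funext ℓ
        apply Fin.ext
        have h3 := congrFun h ℓ
        have h4 := congrArg ZMod.val h3
        simpa only [ZMod.val_natCast_of_lt (y ℓ).2, ZMod.val_natCast_of_lt (y' ℓ).2] using h4
    have h2 : ∑ x, f x ≤ c * (2 * (m : ℝ)) ^ L := by
      rw [Fintype.expect_eq_sum_div_card, hcardA, div_le_iff₀ hpos] at hE
      exact hE
    exact h1.trans h2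
  -- boundary points
  have hm0 : (0 : ℝ) < m := by exact_mod_cast hm
  set Bd : Finset (Fin (2 * m)) := {⟨0, by omega⟩, ⟨2 * m - 1, by omega⟩} with hBd
  have hBdc : Bd.card ≤ 2 := Finset.card_le_two
  have hslab : ∀ ℓ : ι, ((Fintype.piFinset (fun i : ι => if i = ℓ then Bd else Finset.univ)).card : ℝ)
      ≤ (1 / m) * (2 * (m : ℝ)) ^ L := by
    intro ℓ
    have h := slab_card (2 * m) ℓ Bd
    have h2 : (Bd.card : ℝ) ≤ 2 := by exact_mod_cast hBdc
    push_cast at h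
    have h3 : (Bd.card : ℝ) * (2 * (m : ℝ)) ^ L ≤ 2 * (2 * (m : ℝ)) ^ L :=
      mul_le_mul_of_nonneg_right h2 hpos.le
    rw [← hL, ] at h
    rw [← h] at h3
    have h4 : ((Fintype.piFinset (fun i : ι => if i = ℓ then Bd else Finset.univ)).card : ℝ)
        ≤ (2 * (2 * (m : ℝ)) ^ L) / (2 * m) := by
      rw [le_div_iff₀ (by positivity)]
      exact h3
    refine h4.trans (le_of_eq ?_)
    field_simp
  have hsub : J ⊆ Ji ∪ Finset.univ.biUnion
      (fun ℓ : ι => Fintype.piFinset (fun i : ι => if i = ℓ then Bd else Finset.univ)) := by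
    intro y hy
    rw [Finset.mem_union]
    by_cases h : ∀ ℓ, 1 ≤ (y ℓ : ℕ) ∧ (y ℓ : ℕ) ≤ 2 * m - 2
    · left
      exact Finset.mem_filter.2 ⟨hy, h⟩
    · right
      push Not at h
      obtain ⟨ℓ, hℓ⟩ := h
      rw [Finset.mem_biUnion]
      refine ⟨ℓ, Finset.mem_univ _, ?_⟩
      rw [Fintype.mem_piFinset]
      intro i
      by_cases hi : i = ℓ
      · rw [if_pos hi, hi, hBd, Finset.mem_insert, Finset.mem_singleton]
        have hlt := (y ℓ).2
        by_cases h0 : (y ℓ : ℕ) = 0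
        · left
          exact Fin.ext h0
        · right
          apply Fin.ext
          show (y ℓ : ℕ) = 2 * m - 1
          have := hℓ (by omega)
          omega
      · rw [if_neg hi]
        exact Finset.mem_univ _
  have hfin : (J.card : ℝ) ≤ Ji.card + ∑ ℓ : ι,
      ((Fintype.piFinset (fun i : ι => if i = ℓ then Bd else Finset.univ)).card : ℝ) := by
    have h1 := (Finset.card_le_card hsub).trans (Finset.card_union_le _ _)
    have h2 := h1.trans (Nat.add_le_add_left Finset.card_biUnion_le _)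
    exact_mod_cast h2
  calc (J.card : ℝ) ≤ Ji.card + ∑ ℓ : ι,
      ((Fintype.piFinset (fun i : ι => if i = ℓ then Bd else Finset.univ)).card : ℝ) := hfin
    _ ≤ c * (2 * (m : ℝ)) ^ L + ∑ _ℓ : ι, (1 / m) * (2 * (m : ℝ)) ^ L :=
        add_le_add hJic (Finset.sum_le_sum fun ℓ _ => hslab ℓ)
    _ = (c + (L : ℝ) / m) * (2 * (m : ℝ)) ^ L := by
        rw [Finset.sum_const, Finset.card_univ, ← hL, nsmul_eq_mul]
        ring

end R3B
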