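import Pool.Agent.Helper850.RB.Defs

set_option autoImplicit false

namespace R3B
open Finset BigOperators


theorem count (C : ℝ) (hC : 0 < C) : ∃ β : ℝ, 0 < β ∧ β < 1 ∧ ∀ (M : ℕ) (F : Finset (Finset ℕ)),
    (∀ I ∈ F, I ⊆ range M ∧ (I.card : ℝ) ≤ β * M) → (F.card : ℝ) ≤ (2 : ℝ) ^ ((M : ℝ) / C) := by
  have hl2 : 0 < Real.log 2 := Real.log_pos (by norm_num)
  set x : ℝ := min (1 / 2) (Real.log 2 / (2 * C)) with hx
  have hx0 : 0 < x := lt_min (by norm_num) (by positivity)
  have hx1 : x ≤ 1 / 2 := min_le_left _ _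
  have hx2 : x ≤ Real.log 2 / (2 * C) := min_le_right _ _
  set L : ℝ := -Real.log x with hL
  have hL0 : 0 < L := by
    have := Real.log_neg hx0 (by linarith)
    rw [hL]; linarith
  have hxe : x = Real.exp (-L) := by rw [hL, neg_neg, Real.exp_log hx0]
  set β : ℝ := min (1 / 2) (Real.log 2 / (2 * C * L)) with hβ
  have hβ0 : 0 < β := lt_min (by norm_num) (by positivity)
  have hβ1 : β ≤ 1 / 2 := min_le_left _ _
  have hβ2 : β ≤ Real.log 2 / (2 * C * L) := min_le_right _ _
  refine ⟨β, hβ0, by linarith, ?_⟩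
  intro M F hF
  have h1 : ∀ I ∈ F, (1 : ℝ) ≤ x ^ I.card * Real.exp (β * M * L) := by
    intro I hI
    rw [hxe, ← Real.exp_nat_mul, ← Real.exp_add]
    refine Real.one_le_exp ?_
    have := mul_le_mul_of_nonneg_right (hF I hI).2 hL0.le
    nlinarith
  have h2 : (F.card : ℝ) ≤ ∑ I ∈ F, x ^ I.card * Real.exp (β * M * L) := by
    have := Finset.sum_le_sum h1
    simpa using this
  have h3 : ∑ I ∈ F, x ^ I.card * Real.exp (β * M * L) ≤
      ∑ I ∈ (range M).powerset, x ^ I.card * Real.exp (β * M * L) := by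
    refine Finset.sum_le_sum_of_subset_of_nonneg ?_ ?_
    · intro I hI
      exact Finset.mem_powerset.2 (hF I hI).1
    · intro I _ _
      positivity
  have h4 : ∑ I ∈ (range M).powerset, x ^ I.card * Real.exp (β * M * L) =
      (x + 1) ^ M * Real.exp (β * M * L) := by
    rw [← Finset.sum_mul]
    congr 1
    have := Finset.sum_pow_mul_eq_add_pow x 1 (range M)
    simpa using this
  have h5 : (x + 1) ^ M ≤ Real.exp (M * x) := by
    rw [Real.exp_nat_mul]
    exact pow_le_pow_left₀ (by linarith) (Real.add_one_le_exp x) M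
  have h6 : (x + 1) ^ M * Real.exp (β * M * L) ≤ Real.exp (M * x) * Real.exp (β * M * L) :=
    mul_le_mul_of_nonneg_right h5 (Real.exp_pos _).le
  rw [← Real.exp_add] at h6
  refine h2.trans (h3.trans (h4.le.trans (h6.trans ?_)))
  rw [Real.rpow_def_of_pos (by norm_num)]
  refine Real.exp_le_exp.2 ?_
  have hM : (0 : ℝ) ≤ M := Nat.cast_nonneg _
  have h7 : (M : ℝ) * x ≤ M * (Real.log 2 / (2 * C)) := mul_le_mul_of_nonneg_left hx2 hM
  have h8 : β * L ≤ Real.log 2 / (2 * C) := by
    have := mul_le_mul_of_nonneg_right hβ2 hL0.le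
    refine this.trans (le_of_eq ?_)
    field_simp
  have h9 : β * M * L ≤ M * (Real.log 2 / (2 * C)) := by
    have := mul_le_mul_of_nonneg_left h8 hM
    linarith [this, (by ring : (M : ℝ) * (β * L) = β * M * L)]
  have h10 : Real.log 2 * ((M : ℝ) / C) = M * (Real.log 2 / (2 * C)) + M * (Real.log 2 / (2 * C)) := by
    field_simp
    ring
  rw [h10]
  linarith

end R3B
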