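import Pool.Agent.Helper850.RB.Defs

set_option autoImplicit false

namespace R3B
open Finset BigOperators


theorem detK (M : ℕ) (hM : 1 ≤ M) (K s c c' : ℕ → ℝ) (i j : ℕ) (hi : i < M) (hj : j < M)
    (hij : i ≠ j) (hK : ∀ l < M, 0 < K l)
    (hsep : ∀ l i, l < i → i < M → 1 ≤ |s l - s i|)
    (hgrow : ∀ l i, l < i → i < M → 100 * (M : ℝ) ^ 2 * (K l * |s l - s i|) ≤ K i)
    (hc : ∀ l, |c l| ≤ 1) (hci : c i = 1) (hc0 : ∀ l, i < l → c l = 0)
    (hc' : ∀ l, |c' l| ≤ 1) (hcj : c' j = 1) (hc0' : ∀ l, j < l → c' l = 0) :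
    |((∑ l ∈ range M, c l * K l) * (∑ l ∈ range M, c' l * (K l * s l))
      - (∑ l ∈ range M, c l * (K l * s l)) * (∑ l ∈ range M, c' l * K l))
      - K i * K j * (s j - s i)| ≤ 3 / 100 * (K i * K j * |s i - s j|) := by
  obtain ⟨T, hT⟩ : ∃ T : ℕ × ℕ → ℝ, ∀ p, T p =
    c p.1 * c' p.2 * (K p.1 * K p.2) * (s p.2 - s p.1) := ⟨_, fun _ => rfl⟩
  have hD : ((∑ l ∈ range M, c l * K l) * (∑ l ∈ range M, c' l * (K l * s l))
      - (∑ l ∈ range M, c l * (K l * s l)) * (∑ l ∈ range M, c' l * K l)) =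
      ∑ p ∈ range M ×ˢ range M, T p := by
    rw [Finset.sum_mul_sum, Finset.sum_mul_sum, ← Finset.sum_sub_distrib, Finset.sum_product]
    refine Finset.sum_congr rfl fun l _ => ?_
    rw [← Finset.sum_sub_distrib]
    refine Finset.sum_congr rfl fun l' _ => ?_
    rw [hT]
    ring
  have hmem : (i, j) ∈ range M ×ˢ range M :=
    Finset.mem_product.2 ⟨Finset.mem_range.2 hi, Finset.mem_range.2 hj⟩
  have hTij : T (i, j) = K i * K j * (s j - s i) := by
    rw [hT]
    simp only [hci, hcj]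
    ring
  rw [hD, ← Finset.add_sum_erase _ _ hmem, hTij, add_sub_cancel_left]
  have hM0 : (0:ℝ) < M := by exact_mod_cast hM
  obtain ⟨e, he⟩ : ∃ e : ℝ, e = 1 / (100 * (M:ℝ) ^ 2) := ⟨_, rfl⟩
  have he0 : 0 < e := by rw [he]; positivity
  have heM : (M:ℝ) ^ 2 * e = 1 / 100 := by rw [he]; field_simp
  have he1 : e ≤ 1 := by
    have h1 : (1:ℝ) ≤ M := by exact_mod_cast hM
    have h2 : (1:ℝ) ≤ (M:ℝ) ^ 2 := one_le_pow₀ h1
    have h3 : e ≤ (M:ℝ) ^ 2 * e := by
      have := mul_le_mul_of_nonneg_right h2 he0.le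
      linarith
    linarith
  have hgr : ∀ l i, l < i → i < M → K l * |s l - s i| ≤ e * K i := by
    intro l i hl hi
    have h1 := hgrow l i hl hi
    have h2 : e * (100 * (M : ℝ) ^ 2 * (K l * |s l - s i|)) ≤ e * K i :=
      mul_le_mul_of_nonneg_left h1 he0.le
    have h3 : e * (100 * (M : ℝ) ^ 2 * (K l * |s l - s i|)) =
        (100 * ((M:ℝ) ^ 2 * e)) * (K l * |s l - s i|) := by ring
    rw [h3, heM] at h2
    linarith
  have hKl : ∀ l i, l < i → i < M → K l ≤ e * K i := by
    intro l i hl hi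
    have h1 := hsep l i hl hi
    have h2 := hK l (lt_trans hl hi)
    have h3 := hgr l i hl hi
    have h4 : K l * 1 ≤ K l * |s l - s i| := mul_le_mul_of_nonneg_left h1 h2.le
    linarith
  have hgr' : ∀ l i, l ≤ i → i < M → K l * |s l - s i| ≤ e * K i := by
    intro l i hl hi
    rcases hl.lt_or_eq with h | h
    · exact hgr l i h hi
    · subst h
      rw [sub_self, abs_zero, mul_zero]
      exact mul_nonneg he0.le (hK l hi).le
  have hKl' : ∀ l i, l ≤ i → i < M → K l ≤ K i := by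
    intro l i hl hi
    rcases hl.lt_or_eq with h | h
    · have h1 := hKl l i h hi
      have h2 := mul_le_mul_of_nonneg_right he1 (hK i hi).le
      linarith
    · subst h; exact le_rfl
  obtain ⟨Δ, hΔ⟩ : ∃ Δ : ℝ, Δ = |s i - s j| := ⟨_, rfl⟩
  have hΔ1 : 1 ≤ Δ := by
    rw [hΔ]
    rcases lt_or_gt_of_ne hij with h | h
    · exact hsep i j h hj
    · rw [abs_sub_comm]; exact hsep j i h hi
  have hKi := hK i hi
  have hKj := hK j hj
  have hKK : 0 < K i * K j := mul_pos hKi hKj
  have hb0 : 0 ≤ e * (K i * K j * Δ) :=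
    mul_nonneg he0.le (mul_nonneg hKK.le (by linarith))
  have hKKΔ : e * (K i * K j) ≤ e * (K i * K j * Δ) := by
    apply mul_le_mul_of_nonneg_left _ he0.le
    have := mul_le_mul_of_nonneg_left hΔ1 hKK.le
    linarith
  have hterm : ∀ p ∈ (range M ×ˢ range M).erase (i, j), |T p| ≤ 3 * (e * (K i * K j * Δ)) := by
    rintro ⟨l, l'⟩ hp
    obtain ⟨hne, hp2⟩ := Finset.mem_erase.1 hp
    obtain ⟨hl, hl'⟩ := Finset.mem_product.1 hp2
    have hlM : l < M := Finset.mem_range.1 hl
    have hlM' : l' < M := Finset.mem_range.1 hl'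
    rw [hT]
    simp only
    by_cases hil : i < l
    · rw [hc0 l hil]
      simp only [zero_mul, abs_zero]
      linarith
    by_cases hjl : j < l'
    · rw [hc0' l' hjl]
      simp only [mul_zero, zero_mul, abs_zero]
      linarith
    push Not at hil hjl
    have hKl0 := hK l hlM
    have hKl0' := hK l' hlM'
    have hKK' : 0 < K l * K l' := mul_pos hKl0 hKl0'
    have h1 : |c l * c' l' * (K l * K l') * (s l' - s l)| ≤ K l * K l' * |s l' - s l| := by
      rw [abs_mul, abs_mul, abs_mul, abs_of_pos hKK']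
      apply mul_le_mul_of_nonneg_right _ (abs_nonneg _)
      have h2 : |c l| * |c' l'| ≤ 1 * 1 :=
        mul_le_mul (hc l) (hc' l') (abs_nonneg _) zero_le_one
      calc |c l| * |c' l'| * (K l * K l') ≤ (1 * 1) * (K l * K l') :=
            mul_le_mul_of_nonneg_right h2 hKK'.le
        _ = K l * K l' := by ring
    have h2 : |s l' - s l| ≤ |s l - s i| + Δ + |s l' - s j| := by
      rw [hΔ]
      have e1 : s l' - s l = -(s l - s i) + (-(s i - s j)) + (s l' - s j) := by ring
      rw [e1]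
      have t1 := abs_add_le (-(s l - s i) + (-(s i - s j))) (s l' - s j)
      have t2 := abs_add_le (-(s l - s i)) (-(s i - s j))
      rw [abs_neg, abs_neg] at t2
      linarith
    have ha : K l * |s l - s i| * K l' ≤ e * (K i * K j * Δ) := by
      have t1 := mul_le_mul (hgr' l i hil hi) (hKl' l' j hjl hj) hKl0'.le
        (mul_nonneg he0.le hKi.le)
      linarith
    have hcc : K l * (K l' * |s l' - s j|) ≤ e * (K i * K j * Δ) := by
      have t1 := mul_le_mul (hKl' l i hil hi) (hgr' l' j hjl hj)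
        (mul_nonneg hKl0'.le (abs_nonneg _)) hKi.le
      linarith
    have hb : K l * K l' * Δ ≤ e * (K i * K j * Δ) := by
      have t0 : K l * K l' ≤ e * (K i * K j) := by
        rcases hil.lt_or_eq with h | h
        · have t1 := mul_le_mul (hKl l i h hi) (hKl' l' j hjl hj) hKl0'.le
            (mul_nonneg he0.le hKi.le)
          linarith
        · rcases hjl.lt_or_eq with h' | h'
          · have t1 := mul_le_mul (hKl' l i hil hi) (hKl l' j h' hj) hKl0'.le hKi.le
            linarith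
          · exact absurd (Prod.ext h h') hne
      have t1 := mul_le_mul_of_nonneg_right t0 (by linarith : (0:ℝ) ≤ Δ)
      linarith
    have h3 : K l * K l' * |s l' - s l| ≤ K l * K l' * (|s l - s i| + Δ + |s l' - s j|) :=
      mul_le_mul_of_nonneg_left h2 hKK'.le
    have h4 : K l * K l' * (|s l - s i| + Δ + |s l' - s j|) =
        K l * |s l - s i| * K l' + K l * K l' * Δ + K l * (K l' * |s l' - s j|) := by ring
    linarith
  have hcard : (((range M ×ˢ range M).erase (i, j)).card : ℝ) ≤ (M:ℝ) ^ 2 := by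
    have h1 := Finset.card_le_card (Finset.erase_subset (i, j) (range M ×ˢ range M))
    rw [Finset.card_product, Finset.card_range] at h1
    have h2 : (((range M ×ˢ range M).erase (i, j)).card : ℝ) ≤ ((M * M : ℕ) : ℝ) := by
      exact_mod_cast h1
    rw [Nat.cast_mul] at h2
    linarith
  calc |∑ p ∈ (range M ×ˢ range M).erase (i, j), T p|
      ≤ ∑ p ∈ (range M ×ˢ range M).erase (i, j), |T p| := Finset.abs_sum_le_sum_abs _ _
    _ ≤ ((range M ×ˢ range M).erase (i, j)).card • (3 * (e * (K i * K j * Δ))) :=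
        Finset.sum_le_card_nsmul _ _ _ hterm
    _ = (((range M ×ˢ range M).erase (i, j)).card : ℝ) * (3 * (e * (K i * K j * Δ))) := by
        rw [nsmul_eq_mul]
    _ ≤ (M:ℝ) ^ 2 * (3 * (e * (K i * K j * Δ))) :=
        mul_le_mul_of_nonneg_right hcard (by linarith)
    _ = ((M:ℝ) ^ 2 * e) * (3 * (K i * K j * Δ)) := by ring
    _ = 3 / 100 * (K i * K j * |s i - s j|) := by rw [heM, hΔ]; ring

end R3B
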