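import Pool.Agent.Helper850.RB.Defs

set_option autoImplicit false

namespace R3B
open Finset BigOperators


theorem enum {Y : Type} [Fintype Y] [Nonempty Y] (κ : Y → ℕ) (hκ : Function.Injective κ) :
    ∃ lev : ℕ → Y, (∀ i j, i < j → j < Fintype.card Y → κ (lev i) < κ (lev j)) := by
  classical
  have hcard : ((Finset.univ : Finset Y).image κ).card = Fintype.card Y := by
    rw [Finset.card_image_of_injective _ hκ, Finset.card_univ]
  have h1 : ∀ i : Fin (Fintype.card Y),
      ∃ y : Y, κ y = ((Finset.univ : Finset Y).image κ).orderEmbOfFin hcard i := by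
    intro i
    have := Finset.orderEmbOfFin_mem ((Finset.univ : Finset Y).image κ) hcard i
    obtain ⟨y, _, hy⟩ := Finset.mem_image.mp this
    exact ⟨y, hy⟩
  choose y hy using h1
  refine ⟨fun i => if h : i < Fintype.card Y then y ⟨i, h⟩ else Classical.arbitrary Y, ?_⟩
  intro i j hij hj
  have hi : i < Fintype.card Y := hij.trans hj
  simp only [dif_pos hi, dif_pos hj]
  rw [hy, hy]
  exact (Finset.orderEmbOfFin _ hcard).strictMono (by exact hij)

end R3B
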