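import Pool.Agent.Helper850.RB.Defs

set_option autoImplicit false

namespace R3B
open Finset BigOperators


theorem eval_fpoly (a b c : ℝ × ℝ) : evalAt fpoly a b c = ff a b c := by
  unfold evalAt fpoly ff
  have h4 : (MvPolynomial.eval ![a.1, a.2, b.1, b.2, c.1, c.2]) (4 : MvPolynomial (Fin 6) ℝ) = 4 := by
    exact map_ofNat _ 4
  simp only [map_mul, map_sub, map_pow, MvPolynomial.eval_X, h4]
  rfl

end R3B
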