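import Pool.Agent.Helper850.RB.Defs

set_option autoImplicit false

namespace R3B
open Finset BigOperators


theorem growth_aux (L m : ℕ) (hm : 2 * L ≤ m) :
    (2 * (m + 1)) ^ L ≤ 2 * (2 * m) ^ L := by
  rcases Nat.eq_zero_or_pos L with rfl | hL
  · simp
  have hm0 : 0 < m := by omega
  have h1 : (m + 1) ^ L ≤ 2 * m ^ L := by
    have hM : (0 : ℝ) < (m : ℝ) + 1 := by positivity
    have hb := one_add_mul_le_pow (a := -(1 / ((m : ℝ) + 1))) (by
      have : 1 / ((m : ℝ) + 1) ≤ 1 := by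
        rw [div_le_one hM]; linarith [Nat.cast_nonneg (α := ℝ) m]
      linarith) L
    have h2 : 1 + -(1 / ((m : ℝ) + 1)) = (m : ℝ) / (m + 1) := by field_simp; ring
    rw [h2, div_pow] at hb
    have h3 : (1 : ℝ) / 2 ≤ 1 + (L : ℝ) * -(1 / ((m : ℝ) + 1)) := by
      have h4 : (L : ℝ) * (1 / ((m : ℝ) + 1)) ≤ 1 / 2 := by
        rw [mul_one_div, div_le_iff₀ hM]
        have : (2 * L : ℝ) ≤ m := by exact_mod_cast hm
        linarith
      linarith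
    have h5 := h3.trans hb
    rw [le_div_iff₀ (pow_pos hM L)] at h5
    have h6 : ((m : ℝ) + 1) ^ L ≤ 2 * (m : ℝ) ^ L := by linarith
    exact_mod_cast h6
  rw [mul_pow, mul_pow]
  calc 2 ^ L * (m + 1) ^ L ≤ 2 ^ L * (2 * m ^ L) := Nat.mul_le_mul_left _ h1
    _ = 2 * (2 ^ L * m ^ L) := by ring

theorem growth (R : ℕ → ℕ) (L m0 C : ℕ) (hL : 1 ≤ L)
    (h : ∀ m, m0 ≤ m → ∀ n : ℕ,
      (2 : ℝ) ^ ((((2 * m) ^ L : ℕ) : ℝ) / (2 * ((C : ℝ) + 1))) < n → 2 ^ ((2 * m) ^ L) < R n) :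
    ∀ᶠ n in Filter.atTop, C * n ^ C < R n := by
  classical
  set Q : ℕ → ℝ := fun m => (2 : ℝ) ^ ((((2 * m) ^ L : ℕ) : ℝ) / (2 * ((C : ℝ) + 1))) with hQ
  have hC1 : (0 : ℝ) < (C : ℝ) + 1 := by positivity
  set m1 := max m0 (2 * L) with hm1
  rw [Filter.eventually_atTop]
  refine ⟨max (max C 1) (⌈Q m1⌉₊ + 1), ?_⟩
  intro n hn
  have hnC : C ≤ n := (le_max_left _ _).trans ((le_max_left _ _).trans hn)
  have hn1 : 1 ≤ n := (le_max_right _ _).trans ((le_max_left _ _).trans hn)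
  have hnQ : Q m1 < n := by
    have h1 : ⌈Q m1⌉₊ + 1 ≤ n := (le_max_right _ _).trans hn
    have h2 : (⌈Q m1⌉₊ : ℝ) + 1 ≤ n := by exact_mod_cast h1
    linarith [Nat.le_ceil (Q m1)]
  have hex : ∃ k, (n : ℝ) ≤ Q (m1 + k) := by
    refine ⟨(C + 1) * n, ?_⟩
    have h1 : (2 * ((C + 1) * n)) ≤ (2 * (m1 + (C + 1) * n)) ^ L := by
      calc (2 * ((C + 1) * n)) ≤ 2 * (m1 + (C + 1) * n) := by
            apply Nat.mul_le_mul_left; exact Nat.le_add_left _ _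
        _ ≤ (2 * (m1 + (C + 1) * n)) ^ L := Nat.le_self_pow (by omega) _
    have h2 : (n : ℝ) ≤ (((2 * (m1 + (C + 1) * n)) ^ L : ℕ) : ℝ) / (2 * ((C : ℝ) + 1)) := by
      rw [le_div_iff₀ (by positivity)]
      have : ((2 * ((C + 1) * n) : ℕ) : ℝ) ≤ (((2 * (m1 + (C + 1) * n)) ^ L : ℕ) : ℝ) := by
        exact_mod_cast h1
      refine le_trans (le_of_eq ?_) this
      push_cast; ring
    have h3 : (n : ℝ) ≤ (2 : ℝ) ^ (n : ℝ) := by
      rw [Real.rpow_natCast]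
      exact_mod_cast (Nat.lt_two_pow_self (n := n)).le
    refine h3.trans ?_
    exact Real.rpow_le_rpow_of_exponent_le (by norm_num) h2
  set k := Nat.find hex with hk
  have hkspec : (n : ℝ) ≤ Q (m1 + k) := Nat.find_spec hex
  have hk0 : k ≠ 0 := by
    intro h0
    rw [h0, add_zero] at hkspec
    linarith
  obtain ⟨j, hj⟩ := Nat.exists_eq_succ_of_ne_zero hk0
  have hjlt : Q (m1 + j) < n := by
    have := Nat.find_min hex (m := j) (by rw [← hk, hj]; exact Nat.lt_succ_self j)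
    exact not_le.mp this
  set m := m1 + j with hm
  have hm0 : m0 ≤ m := (le_max_left _ _).trans (Nat.le_add_right _ _)
  have hmL : 2 * L ≤ m := (le_max_right _ _).trans (Nat.le_add_right _ _)
  have hR := h m hm0 n hjlt
  have hnle : (n : ℝ) ≤ (2 : ℝ) ^ ((((2 * m) ^ L : ℕ) : ℝ) / ((C : ℝ) + 1)) := by
    have h1 : m1 + k = m + 1 := by rw [hj, hm]; rfl
    rw [h1] at hkspec
    refine hkspec.trans ?_
    apply Real.rpow_le_rpow_of_exponent_le (by norm_num)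
    have h2 : (((2 * (m + 1)) ^ L : ℕ) : ℝ) ≤ ((2 * (2 * m) ^ L : ℕ) : ℝ) := by
      exact_mod_cast growth_aux L m hmL
    rw [div_le_div_iff₀ (by positivity) hC1]
    have h3 : ((2 * (2 * m) ^ L : ℕ) : ℝ) = 2 * (((2 * m) ^ L : ℕ) : ℝ) := by push_cast; ring
    rw [h3] at h2
    nlinarith
  have hpow : (n : ℝ) ^ (C + 1) ≤ (2 : ℝ) ^ ((2 * m) ^ L) := by
    calc (n : ℝ) ^ (C + 1) ≤ ((2 : ℝ) ^ ((((2 * m) ^ L : ℕ) : ℝ) / ((C : ℝ) + 1))) ^ (C + 1) :=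
          pow_le_pow_left₀ (Nat.cast_nonneg _) hnle _
      _ = (2 : ℝ) ^ ((2 * m) ^ L) := by
          rw [← Real.rpow_natCast (_ ^ _) (C + 1), ← Real.rpow_mul (by norm_num)]
          have : (((2 * m) ^ L : ℕ) : ℝ) / ((C : ℝ) + 1) * ((C + 1 : ℕ) : ℝ)
              = (((2 * m) ^ L : ℕ) : ℝ) := by
            push_cast; field_simp
          rw [this, Real.rpow_natCast]
  have hpow' : n ^ (C + 1) ≤ 2 ^ ((2 * m) ^ L) := by exact_mod_cast hpow
  calc C * n ^ C ≤ n * n ^ C := Nat.mul_le_mul_right _ hnC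
    _ = n ^ (C + 1) := by ring
    _ ≤ 2 ^ ((2 * m) ^ L) := hpow'
    _ < R n := hR

end R3B
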