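import Pool.Agent.Helper850.RB.Defs
import Pool.Agent.Helper850.RB.P_digit_bound

set_option autoImplicit false

namespace R3B
open Finset BigOperators


theorem kap_bounds {ι : Type} [Fintype ι] [DecidableEq ι] (N : ℕ) (hN : 2 ≤ N) (rk : ι → ℕ)
    (hrk : Function.Injective rk) (y y' : ι → Fin N) (ℓ : ι) (h : TD rk y y' ℓ) :
    (y' ℓ < y ℓ → 3 * (4 * (N : ℤ)) ^ rk ℓ + 1 ≤
      4 * ((kap (4 * N) rk y : ℤ) - (kap (4 * N) rk y' : ℤ))) := by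
  intro hlt
  have hNz : (2 : ℤ) ≤ N := by exact_mod_cast hN
  have hPc : ((4 * N : ℕ) : ℤ) = 4 * (N : ℤ) := by push_cast; ring
  let c : ι → ℤ := fun l => if l = ℓ then 0 else ((y l : ℕ) : ℤ) - ((y' l : ℕ) : ℤ)
  have hsplit : (kap (4 * N) rk y : ℤ) - (kap (4 * N) rk y' : ℤ) =
      (((y ℓ : ℕ) : ℤ) - ((y' ℓ : ℕ) : ℤ)) * (4 * (N : ℤ)) ^ rk ℓ + ev (4 * N) rk c := by
    unfold kap ev
    rw [← Finset.add_sum_erase Finset.univ _ (Finset.mem_univ ℓ),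
      ← Finset.add_sum_erase Finset.univ (fun l => (y' l : ℕ) * (4 * N) ^ rk l) (Finset.mem_univ ℓ),
      ← Finset.add_sum_erase Finset.univ (fun l => c l * ((4 * N : ℕ) : ℤ) ^ rk l) (Finset.mem_univ ℓ)]
    have hc0 : c ℓ = 0 := if_pos rfl
    have hs : ∑ x ∈ Finset.univ.erase ℓ, c x * ((4 * N : ℕ) : ℤ) ^ rk x =
        ∑ x ∈ Finset.univ.erase ℓ, ((y x : ℕ) : ℤ) * ((4 * N : ℕ) : ℤ) ^ rk x -
        ∑ x ∈ Finset.univ.erase ℓ, ((y' x : ℕ) : ℤ) * ((4 * N : ℕ) : ℤ) ^ rk x := by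
      rw [← Finset.sum_sub_distrib]
      refine Finset.sum_congr rfl fun x hx => ?_
      have : c x = ((y x : ℕ) : ℤ) - ((y' x : ℕ) : ℤ) := if_neg (Finset.ne_of_mem_erase hx)
      rw [this]
      ring
    rw [hs, hc0]
    push_cast
    ring
  have hcb : ∀ l, |c l| ≤ (N : ℤ) - 1 := by
    intro l
    have h1 := (y l).2
    have h2 := (y' l).2
    by_cases hl : l = ℓ
    · have : c l = 0 := if_pos hl
      rw [this, abs_zero]
      omega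
    · have : c l = ((y l : ℕ) : ℤ) - ((y' l : ℕ) : ℤ) := if_neg hl
      rw [this, abs_le]
      constructor <;> omega
  have hc0 : ∀ l, rk ℓ ≤ rk l → c l = 0 := by
    intro l hl
    by_cases hl' : l = ℓ
    · exact if_pos hl'
    · have h1 : c l = ((y l : ℕ) : ℤ) - ((y' l : ℕ) : ℤ) := if_neg hl'
      have h2 : rk ℓ < rk l := lt_of_le_of_ne hl fun he => hl' (hrk he.symm)
      rw [h1, h.2 l h2, sub_self]
  have hdb := digit_bound (4 * N) (by omega) rk hrk c ((N : ℤ) - 1) (by omega) (rk ℓ) hcb hc0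
  rw [hPc] at hdb
  have hP1 : (1 : ℤ) ≤ (4 * (N : ℤ)) ^ rk ℓ := one_le_pow₀ (by omega)
  have h4 : 4 * |ev (4 * N) rk c| ≤ (4 * (N : ℤ)) ^ rk ℓ - 1 := by
    have h5 : (4 * (N : ℤ) - 1) * (4 * |ev (4 * N) rk c|) ≤
        (4 * (N : ℤ) - 1) * ((4 * (N : ℤ)) ^ rk ℓ - 1) := by nlinarith
    exact le_of_mul_le_mul_left h5 (by omega)
  have h6 : -|ev (4 * N) rk c| ≤ ev (4 * N) rk c := neg_abs_le _
  have h7 : (1 : ℤ) ≤ ((y ℓ : ℕ) : ℤ) - ((y' ℓ : ℕ) : ℤ) := by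
    have : (y' ℓ : ℕ) < (y ℓ : ℕ) := hlt
    omega
  have h8 : (4 * (N : ℤ)) ^ rk ℓ ≤ (((y ℓ : ℕ) : ℤ) - ((y' ℓ : ℕ) : ℤ)) * (4 * (N : ℤ)) ^ rk ℓ := by
    nlinarith
  rw [hsplit]
  linarith

end R3B
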