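import Pool.Agent.Helper850.RB.Defs
import Pool.Agent.Helper850.RB.P_kap_bounds

set_option autoImplicit false

namespace R3B
open Finset BigOperators


theorem kap_lt_iff {ι : Type} [Fintype ι] [DecidableEq ι] (N : ℕ) (hN : 2 ≤ N) (rk : ι → ℕ)
    (hrk : Function.Injective rk) (y y' : ι → Fin N) (ℓ : ι) (h : TD rk y y' ℓ) :
    kap (4 * N) rk y' < kap (4 * N) rk y ↔ y' ℓ < y ℓ := by
  have h' : TD rk y' y ℓ := ⟨h.1.symm, fun ℓ' hl => (h.2 ℓ' hl).symm⟩
  have key : ∀ z z' : ι → Fin N, TD rk z z' ℓ → z' ℓ < z ℓ →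
      kap (4 * N) rk z' < kap (4 * N) rk z := by
    intro z z' hz hlt
    have h1 := kap_bounds N hN rk hrk z z' ℓ hz hlt
    have h2 : (0 : ℤ) ≤ (4 * (N : ℤ)) ^ rk ℓ := by positivity
    generalize (4 * (N : ℤ)) ^ rk ℓ = X at *
    omega
  constructor
  · intro hlt
    by_contra hc
    have h3 : y ℓ < y' ℓ := lt_of_le_of_ne (not_lt.mp hc) h.1
    have h4 := key y' y h' h3
    omega
  · exact key y y' h

end R3B
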