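import Pool.Agent.Helper850.RB.Defs

set_option autoImplicit false

namespace R3B
open Finset BigOperators


theorem pair_num (N M Λ Δ D : ℝ) (e κ κ' : ℕ) (hN : 1 ≤ N) (hM : 1 ≤ M)
    (hΛ : 1000 * N ^ 2 * M ^ 2 ≤ Λ) (h1 : 1 ≤ Δ) (h2 : Δ ≤ N - 1) (he : 1 ≤ e)
    (hD : |D - Δ * Λ ^ e| ≤ Λ ^ e / 100) (hκ : e + 1 + 2 * κ' ≤ 2 * κ) :
    1 ≤ |D| ∧ 100 * M ^ 2 * (Λ ^ (2 * κ') * |D|) ≤ Λ ^ (2 * κ) ∧
    (κ = κ' + e → Δ = 1 → 1 / 2 ≤ D ^ 2 * Λ ^ (2 * κ') / Λ ^ (2 * κ) ∧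
      D ^ 2 * Λ ^ (2 * κ') / Λ ^ (2 * κ) ≤ 2) ∧
    (κ ≠ κ' + e → D ^ 2 * Λ ^ (2 * κ') / Λ ^ (2 * κ) < 1 / 8 ∨
      8 < D ^ 2 * Λ ^ (2 * κ') / Λ ^ (2 * κ)) := by
  have hN2 : 1 ≤ N ^ 2 := one_le_pow₀ hN
  have hM2 : 1 ≤ M ^ 2 := one_le_pow₀ hM
  have hNM : 1 ≤ N ^ 2 * M ^ 2 := one_le_mul_of_one_le_of_one_le hN2 hM2
  have hΛ1000 : 1000 ≤ Λ := by nlinarith
  have hΛ1 : 1 ≤ Λ := by linarith
  have hΛ0 : 0 < Λ := by linarith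
  have hNΛ : 1000 * N ^ 2 ≤ Λ := by nlinarith
  have hNNM : 100 * M ^ 2 * N ≤ Λ := by
    have hNN : N ≤ N ^ 2 := by nlinarith
    have : M ^ 2 * N ≤ M ^ 2 * N ^ 2 := mul_le_mul_of_nonneg_left hNN (by linarith)
    nlinarith
  set E : ℝ := Λ ^ e with hE
  have hEpos : 0 < E := pow_pos hΛ0 e
  have hEΛ : Λ ≤ E := by
    calc Λ = Λ ^ 1 := (pow_one Λ).symm
      _ ≤ Λ ^ e := pow_le_pow_right₀ hΛ1 he
  obtain ⟨hD1, hD2⟩ := abs_le.mp hD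
  have hDlo : 0.99 * E ≤ D := by nlinarith
  have hDhi : D ≤ N * E := by nlinarith
  have hDpos : 0 < D := by nlinarith
  have hsq_lo : (0.99 * E) ^ 2 ≤ D ^ 2 := by
    apply pow_le_pow_left₀ (by positivity) hDlo
  have hsq_hi : D ^ 2 ≤ (N * E) ^ 2 := by
    apply pow_le_pow_left₀ hDpos.le hDhi
  have hK' : 0 < Λ ^ (2 * κ') := pow_pos hΛ0 _
  have hK : 0 < Λ ^ (2 * κ) := pow_pos hΛ0 _
  rw [abs_of_pos hDpos]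
  refine ⟨by nlinarith, ?_, ?_, ?_⟩
  · calc 100 * M ^ 2 * (Λ ^ (2 * κ') * D) ≤ 100 * M ^ 2 * (Λ ^ (2 * κ') * (N * E)) := by
          gcongr
      _ = (100 * M ^ 2 * N) * (Λ ^ (2 * κ') * E) := by ring
      _ ≤ Λ * (Λ ^ (2 * κ') * E) := by gcongr
      _ = Λ ^ (e + 1 + 2 * κ') := by rw [hE]; ring
      _ ≤ Λ ^ (2 * κ) := pow_le_pow_right₀ hΛ1 hκ
  · intro hk hΔ
    have e1 : Λ ^ (2 * κ) = E ^ 2 * Λ ^ (2 * κ') := by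
      rw [hk, hE]; ring
    rw [e1, mul_div_mul_right _ _ hK'.ne']
    rw [hΔ, one_mul] at hD2
    have hE2 : 0 < E ^ 2 := by positivity
    constructor
    · rw [le_div_iff₀ hE2]; nlinarith
    · rw [div_le_iff₀ hE2]
      have : D ≤ 1.01 * E := by linarith
      have h5 : D ^ 2 ≤ (1.01 * E) ^ 2 := pow_le_pow_left₀ hDpos.le this 2
      nlinarith
  · intro hk
    rcases lt_or_gt_of_ne hk with h | h
    · right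
      rw [lt_div_iff₀ hK]
      have e1 : Λ ^ (2 * κ) * Λ ^ 2 ≤ E ^ 2 * Λ ^ (2 * κ') := by
        have : E ^ 2 * Λ ^ (2 * κ') = Λ ^ (2 * κ' + 2 * e) := by rw [hE]; ring
        rw [this, ← pow_add]
        exact pow_le_pow_right₀ hΛ1 (by omega)
      have e2 : 10 * Λ ^ (2 * κ) ≤ Λ ^ (2 * κ) * Λ ^ 2 := by
        have : (10 : ℝ) ≤ Λ ^ 2 := by nlinarith
        nlinarith
      have e3 : (0.99 * E) ^ 2 * Λ ^ (2 * κ') ≤ D ^ 2 * Λ ^ (2 * κ') := by gcongr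
      nlinarith
    · left
      rw [div_lt_iff₀ hK]
      have e1 : E ^ 2 * Λ ^ (2 * κ') * Λ ^ 2 ≤ Λ ^ (2 * κ) := by
        have : E ^ 2 * Λ ^ (2 * κ') * Λ ^ 2 = Λ ^ (2 * κ' + 2 * e + 2) := by rw [hE]; ring
        rw [this]
        exact pow_le_pow_right₀ hΛ1 (by omega)
      have e3 : D ^ 2 * Λ ^ (2 * κ') ≤ (N * E) ^ 2 * Λ ^ (2 * κ') := by gcongr
      have e4 : N ^ 2 * 100 ≤ Λ ^ 2 := by nlinarith
      have hX : 0 < E ^ 2 * Λ ^ (2 * κ') := by positivity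
      have e5 : (N ^ 2 * 100) * (E ^ 2 * Λ ^ (2 * κ')) ≤ Λ ^ 2 * (E ^ 2 * Λ ^ (2 * κ')) :=
        mul_le_mul_of_nonneg_right e4 hX.le
      have e6 : 0 < N ^ 2 * (E ^ 2 * Λ ^ (2 * κ')) := by positivity
      nlinarith

end R3B
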