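import Pool.Agent.Helper850.RB.Defs
import Pool.Agent.Helper850.RB.P_e_bounds

set_option autoImplicit false

namespace R3B
open Finset BigOperators


theorem slope_diff_low {ι : Type} [Fintype ι] [DecidableEq ι] (P : ℕ) (hP : 8 ≤ P) (rk : ι → ℕ)
    (V : ι → (ι → ZMod 2) → ι → ℤ) (hV : Valid1 rk V) (ℓ ℓ' : ι) (q q' : ι → ZMod 2)
    (h : rk ℓ' < rk ℓ) :
    (ev P rk (V ℓ' q')).toNat + 1 ≤ (ev P rk (V ℓ q)).toNat := by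
  have h1 := (e_bounds P hP rk V hV ℓ q).1
  have h2 := (e_bounds P hP rk V hV ℓ' q').2
  have h3 : (P : ℤ) ^ (rk ℓ' + 1) ≤ (P : ℤ) ^ rk ℓ := by
    apply pow_le_pow_right₀
    · have : (8 : ℤ) ≤ P := by exact_mod_cast hP
      linarith
    · exact h
  have h4 : (1 : ℤ) ≤ (P : ℤ) ^ rk ℓ' := by
    apply one_le_pow₀
    have : (8 : ℤ) ≤ P := by exact_mod_cast hP
    linarith
  have h5 : 8 * (P : ℤ) ^ rk ℓ' ≤ (P : ℤ) ^ (rk ℓ' + 1) := by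
    rw [pow_succ, mul_comm]
    apply mul_le_mul_of_nonneg_left _ (by linarith)
    exact_mod_cast hP
  omega

theorem slope_diff_pos {ι : Type} [Fintype ι] [DecidableEq ι] (P : ℕ) (hP : 8 ≤ P) (rk : ι → ℕ)
    (V : ι → (ι → ZMod 2) → ι → ℤ) (hV : Valid1 rk V) (ℓ : ι) (q : ι → ZMod 2) :
    1 ≤ (ev P rk (V ℓ q)).toNat := by
  have h1 := (e_bounds P hP rk V hV ℓ q).1
  have h4 : (1 : ℤ) ≤ (P : ℤ) ^ rk ℓ := by
    apply one_le_pow₀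
    have : (8 : ℤ) ≤ P := by exact_mod_cast hP
    linarith
  omega

theorem slope_diff_term {N : ℕ} (Λ : ℝ) (h1 : 1 ≤ Λ) (a : Fin N) {e e0 : ℕ} (he : e ≤ e0) :
    0 ≤ ((a : ℕ) : ℝ) * Λ ^ e ∧ ((a : ℕ) : ℝ) * Λ ^ e ≤ (N : ℝ) * Λ ^ e0 := by
  have h2 : (0 : ℝ) ≤ Λ ^ e := pow_nonneg (by linarith) _
  have h3 : Λ ^ e ≤ Λ ^ e0 := pow_le_pow_right₀ h1 he
  have h4 : ((a : ℕ) : ℝ) ≤ N := by exact_mod_cast a.2.le
  constructor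
  · positivity
  · exact mul_le_mul h4 h3 h2 (Nat.cast_nonneg _)

theorem slope_diff {ι : Type} [Fintype ι] [DecidableEq ι] (N : ℕ) (hN : 2 ≤ N) (rk : ι → ℕ)
    (V : ι → (ι → ZMod 2) → ι → ℤ) (hV : Valid1 rk V) (Λ : ℝ) (h1 : 1 ≤ Λ)
    (hΛ : 100 * ((Fintype.card ι : ℝ) * N) ≤ Λ)
    (y y' : ι → Fin N) (ℓ : ι) (h : TD rk y y' ℓ) :
    |(slope Λ (4 * N) rk V y - slope Λ (4 * N) rk V y')
      - (((y ℓ : ℕ) : ℝ) - ((y' ℓ : ℕ) : ℝ)) * Λ ^ eexp (4 * N) rk V y ℓ| ≤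
      Λ ^ eexp (4 * N) rk V y ℓ / 100 := by
  obtain ⟨-, htop⟩ := h
  have hP : 8 ≤ 4 * N := by omega
  have hexp : ∀ ℓ', rk ℓ ≤ rk ℓ' → eexp (4 * N) rk V y ℓ' = eexp (4 * N) rk V y' ℓ' := by
    intro ℓ' hl
    unfold eexp
    rw [hV.dep ℓ' (bpar y) (bpar y')]
    intro ℓ'' hl''
    unfold bpar
    rw [htop ℓ'' (by omega)]
  have hpos := slope_diff_pos (4 * N) hP rk V hV ℓ (bpar y)
  obtain ⟨e0, he0⟩ : ∃ e0, eexp (4 * N) rk V y ℓ = e0 + 1 :=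
    ⟨eexp (4 * N) rk V y ℓ - 1, by unfold eexp; omega⟩
  have hlow : ∀ (z : ι → Fin N) (ℓ' : ι), rk ℓ' < rk ℓ → eexp (4 * N) rk V z ℓ' ≤ e0 := by
    intro z ℓ' hl
    have := slope_diff_low (4 * N) hP rk V hV ℓ ℓ' (bpar y) (bpar z) hl
    unfold eexp at he0 ⊢
    omega
  have hΛ0 : (0 : ℝ) ≤ Λ ^ e0 := pow_nonneg (by linarith) _
  have hb0 : (0 : ℝ) ≤ (N : ℝ) * Λ ^ e0 := by positivity
  have hrepr : (slope Λ (4 * N) rk V y - slope Λ (4 * N) rk V y')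
      - (((y ℓ : ℕ) : ℝ) - ((y' ℓ : ℕ) : ℝ)) * Λ ^ eexp (4 * N) rk V y ℓ =
      ∑ ℓ', (((y ℓ' : ℕ) : ℝ) * Λ ^ eexp (4 * N) rk V y ℓ' -
        ((y' ℓ' : ℕ) : ℝ) * Λ ^ eexp (4 * N) rk V y' ℓ' -
        (if ℓ' = ℓ then (((y ℓ : ℕ) : ℝ) - ((y' ℓ : ℕ) : ℝ)) * Λ ^ eexp (4 * N) rk V y ℓ
          else 0)) := by
    rw [Finset.sum_sub_distrib, Finset.sum_sub_distrib, Finset.sum_ite_eq' Finset.univ ℓ]
    simp [slope]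
  rw [hrepr]
  refine (Finset.abs_sum_le_sum_abs _ _).trans ?_
  have hterm : ∀ ℓ', |((y ℓ' : ℕ) : ℝ) * Λ ^ eexp (4 * N) rk V y ℓ' -
        ((y' ℓ' : ℕ) : ℝ) * Λ ^ eexp (4 * N) rk V y' ℓ' -
        (if ℓ' = ℓ then (((y ℓ : ℕ) : ℝ) - ((y' ℓ : ℕ) : ℝ)) * Λ ^ eexp (4 * N) rk V y ℓ
          else 0)| ≤ (N : ℝ) * Λ ^ e0 := by
    intro ℓ'
    rcases lt_trichotomy (rk ℓ') (rk ℓ) with hl | hl | hl
    · have hne : ℓ' ≠ ℓ := by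
        rintro rfl
        exact lt_irrefl _ hl
      rw [if_neg hne, sub_zero]
      obtain ⟨a1, a2⟩ := slope_diff_term Λ h1 (y ℓ') (hlow y ℓ' hl)
      obtain ⟨b1, b2⟩ := slope_diff_term Λ h1 (y' ℓ') (hlow y' ℓ' hl)
      rw [abs_le]
      constructor <;> linarith
    · have hne : ℓ' = ℓ := hV.inj hl
      subst hne
      rw [if_pos rfl, hexp ℓ' le_rfl]
      have : ((y ℓ' : ℕ) : ℝ) * Λ ^ eexp (4 * N) rk V y' ℓ' -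
        ((y' ℓ' : ℕ) : ℝ) * Λ ^ eexp (4 * N) rk V y' ℓ' -
        (((y ℓ' : ℕ) : ℝ) - ((y' ℓ' : ℕ) : ℝ)) * Λ ^ eexp (4 * N) rk V y' ℓ' = 0 := by ring
      rw [this, abs_zero]
      exact hb0
    · have hne : ℓ' ≠ ℓ := by
        rintro rfl
        exact lt_irrefl _ hl
      rw [if_neg hne, sub_zero, hexp ℓ' hl.le, htop ℓ' hl, sub_self, abs_zero]
      exact hb0
  refine (Finset.sum_le_sum (fun ℓ' _ => hterm ℓ')).trans ?_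
  rw [Finset.sum_const, Finset.card_univ, nsmul_eq_mul, he0, pow_succ]
  have h5 : 100 * ((Fintype.card ι : ℝ) * N) * Λ ^ e0 ≤ Λ * Λ ^ e0 :=
    mul_le_mul_of_nonneg_right hΛ hΛ0
  rw [le_div_iff₀ (by norm_num)]
  linarith

end R3B
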