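import Pool.Agent.Helper850.RB.Defs

set_option autoImplicit false

namespace R3B
open Finset BigOperators


theorem td_exists {ι : Type} [Fintype ι] {N : ℕ} (rk : ι → ℕ)
    (y y' : ι → Fin N) (h : y ≠ y') : ∃ ℓ, TD rk y y' ℓ := by
  classical
  have hne : (Finset.univ.filter (fun ℓ => y ℓ ≠ y' ℓ)).Nonempty := by
    by_contra hcon
    apply h
    funext ℓ
    by_contra hℓ
    exact hcon ⟨ℓ, Finset.mem_filter.2 ⟨Finset.mem_univ _, hℓ⟩⟩
  obtain ⟨ℓ, hℓ, hmax⟩ := Finset.exists_max_image _ rk hne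
  refine ⟨ℓ, (Finset.mem_filter.1 hℓ).2, fun ℓ' hlt => ?_⟩
  by_contra hcon
  exact absurd (hmax ℓ' (Finset.mem_filter.2 ⟨Finset.mem_univ _, hcon⟩)) (by omega)

end R3B
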