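import Pool.Agent.Helper850.RB.Defs
import Pool.Agent.Helper850.RB.P_e_bounds
import Pool.Agent.Helper850.RB.P_kap_bounds
import Pool.Agent.Helper850.RB.P_td_exists
import Pool.Agent.Helper850.RB.P_kap_lt_iff
import Pool.Agent.Helper850.RB.P_slope_diff
import Pool.Agent.Helper850.RB.P_GG_iff
import Pool.Agent.Helper850.RB.P_pair_num

set_option autoImplicit false

namespace R3B
open Finset BigOperators


theorem level_pair {ι : Type} [Fintype ι] [DecidableEq ι] (N : ℕ) (hN : 2 ≤ N) (rk : ι → ℕ)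
    (V : ι → (ι → ZMod 2) → ι → ℤ) (hV : Valid1 rk V) (M : ℕ) (hM : 1 ≤ M) (Λ : ℝ)
    (hΛ : 1000 * ((Fintype.card ι : ℝ) + 1) * (N : ℝ) ^ 2 * (M : ℝ) ^ 2 ≤ Λ)
    (y y' : ι → Fin N) (h : kap (4 * N) rk y' < kap (4 * N) rk y) :
    1 ≤ |slope Λ (4 * N) rk V y' - slope Λ (4 * N) rk V y| ∧
    100 * (M : ℝ) ^ 2 * (Λ ^ (2 * kap (4 * N) rk y') *
      |slope Λ (4 * N) rk V y' - slope Λ (4 * N) rk V y|) ≤ Λ ^ (2 * kap (4 * N) rk y) ∧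
    (GG V y y' →
      1 / 2 ≤ (slope Λ (4 * N) rk V y - slope Λ (4 * N) rk V y') ^ 2 *
        Λ ^ (2 * kap (4 * N) rk y') / Λ ^ (2 * kap (4 * N) rk y) ∧
      (slope Λ (4 * N) rk V y - slope Λ (4 * N) rk V y') ^ 2 *
        Λ ^ (2 * kap (4 * N) rk y') / Λ ^ (2 * kap (4 * N) rk y) ≤ 2) ∧
    (¬ GG V y y' →
      (slope Λ (4 * N) rk V y - slope Λ (4 * N) rk V y') ^ 2 *
        Λ ^ (2 * kap (4 * N) rk y') / Λ ^ (2 * kap (4 * N) rk y) < 1 / 8 ∨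
      8 < (slope Λ (4 * N) rk V y - slope Λ (4 * N) rk V y') ^ 2 *
        Λ ^ (2 * kap (4 * N) rk y') / Λ ^ (2 * kap (4 * N) rk y)) := by
  have hne : y ≠ y' := by
    intro e
    subst e
    exact lt_irrefl _ h
  obtain ⟨ℓ, hTD⟩ := td_exists rk y y' hne
  have hlt : y' ℓ < y ℓ := (kap_lt_iff N hN rk hV.inj y y' ℓ hTD).1 h
  obtain ⟨hb1, hb2⟩ := e_bounds (4 * N) (by omega) rk V hV ℓ (bpar y)
  have hkb := kap_bounds N hN rk hV.inj y y' ℓ hTD hlt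
  have hNr : (2:ℝ) ≤ N := by exact_mod_cast hN
  have hMr : (1:ℝ) ≤ M := by exact_mod_cast hM
  have hc0 : (0:ℝ) ≤ (Fintype.card ι : ℝ) := Nat.cast_nonneg _
  have hN2 : (1:ℝ) ≤ (N:ℝ) ^ 2 := by nlinarith
  have hM2 : (1:ℝ) ≤ (M:ℝ) ^ 2 := by nlinarith
  have hNM : (N:ℝ) ≤ (N:ℝ) ^ 2 * (M:ℝ) ^ 2 := by
    have h3 : (N:ℝ) ≤ (N:ℝ) ^ 2 := by nlinarith
    have h4 : (N:ℝ) ^ 2 * 1 ≤ (N:ℝ) ^ 2 * (M:ℝ) ^ 2 := by
      apply mul_le_mul_of_nonneg_left hM2 (by positivity)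
    linarith
  have hΛ1 : 1000 * (N : ℝ) ^ 2 * (M : ℝ) ^ 2 ≤ Λ := by
    refine le_trans ?_ hΛ
    have h5 : 0 ≤ (Fintype.card ι : ℝ) * ((N : ℝ) ^ 2 * (M : ℝ) ^ 2) := by positivity
    nlinarith
  have hΛ2 : 100 * ((Fintype.card ι : ℝ) * N) ≤ Λ := by
    refine le_trans ?_ hΛ
    have h5 : (Fintype.card ι : ℝ) * N ≤ (Fintype.card ι : ℝ) * ((N : ℝ) ^ 2 * (M : ℝ) ^ 2) :=
      mul_le_mul_of_nonneg_left hNM hc0
    have h6 : 0 ≤ (N : ℝ) ^ 2 * (M : ℝ) ^ 2 := by positivity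
    have h7 : 0 ≤ (Fintype.card ι : ℝ) * N := by positivity
    nlinarith
  have hΛ3 : 1 ≤ Λ := by
    refine le_trans ?_ hΛ1
    have h6 : 1 ≤ (N : ℝ) ^ 2 * (M : ℝ) ^ 2 := by
      calc (1:ℝ) = 1 * 1 := by ring
        _ ≤ (N : ℝ) ^ 2 * (M : ℝ) ^ 2 := mul_le_mul hN2 hM2 (by norm_num) (by positivity)
    nlinarith
  have hsd := slope_diff N hN rk V hV Λ hΛ3 hΛ2 y y' ℓ hTD
  obtain ⟨hG1, hG2⟩ := GG_iff N hN rk V hV y y' ℓ hTD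
  have hPpos : (1:ℤ) ≤ ((4 * N : ℕ) : ℤ) ^ rk ℓ := by
    have : (0:ℤ) < ((4 * N : ℕ) : ℤ) ^ rk ℓ := by
      apply pow_pos
      exact_mod_cast (by omega : 0 < 4 * N)
    omega
  have hcast : (4 * (N : ℤ)) ^ rk ℓ = ((4 * N : ℕ) : ℤ) ^ rk ℓ := by
    push_cast
    rfl
  rw [hcast] at hkb
  have hev : (eexp (4 * N) rk V y ℓ : ℤ) = ev (4 * N) rk (V ℓ (bpar y)) := by
    unfold eexp
    apply Int.toNat_of_nonneg
    omega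
  rw [← hev] at hb1 hb2
  have he1 : 1 ≤ eexp (4 * N) rk V y ℓ := by
    have : (1:ℤ) ≤ (eexp (4 * N) rk V y ℓ : ℤ) := by omega
    exact_mod_cast this
  have hκ : eexp (4 * N) rk V y ℓ + 1 + 2 * kap (4 * N) rk y' ≤ 2 * kap (4 * N) rk y := by
    have : (eexp (4 * N) rk V y ℓ : ℤ) + 1 + 2 * (kap (4 * N) rk y' : ℤ) ≤
        2 * (kap (4 * N) rk y : ℤ) := by omega
    exact_mod_cast this
  have hΔ1 : (1:ℝ) ≤ ((y ℓ : ℕ) : ℝ) - ((y' ℓ : ℕ) : ℝ) := by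
    have h5 : (y' ℓ : ℕ) + 1 ≤ (y ℓ : ℕ) := hlt
    have h6 : ((y' ℓ : ℕ) : ℝ) + 1 ≤ ((y ℓ : ℕ) : ℝ) := by exact_mod_cast h5
    linarith
  have hΔ2 : ((y ℓ : ℕ) : ℝ) - ((y' ℓ : ℕ) : ℝ) ≤ (N : ℝ) - 1 := by
    have h5 : (y ℓ : ℕ) + 1 ≤ N := (y ℓ).isLt
    have h6 : ((y ℓ : ℕ) : ℝ) + 1 ≤ (N : ℝ) := by exact_mod_cast h5
    have h7 : (0:ℝ) ≤ ((y' ℓ : ℕ) : ℝ) := Nat.cast_nonneg _
    linarith
  obtain ⟨r1, r2, r3, r4⟩ := pair_num (N : ℝ) (M : ℝ) Λ _ _ _ _ _ (by linarith) hMr hΛ1 hΔ1 hΔ2 he1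
    hsd hκ
  rw [abs_sub_comm]
  refine ⟨r1, r2, ?_, ?_⟩
  · intro hG
    have h5 := hG1.1 hG
    have h6 := hG2 hG
    apply r3
    · have : (kap (4 * N) rk y : ℤ) = (kap (4 * N) rk y' : ℤ) + (eexp (4 * N) rk V y ℓ : ℤ) := by
        omega
      exact_mod_cast this
    · exact_mod_cast h6
  · intro hG
    apply r4
    intro h5
    apply hG
    apply hG1.2
    rw [h5]
    push_cast
    ring

end R3B
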