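import Pool.Agent.Helper850.RB.Defs
import Pool.Agent.Helper850.RB.P_td_exists
import Pool.Agent.Helper850.RB.P_kap_lt_iff
import Pool.Agent.Helper850.RB.P_GG_iff
import Pool.Agent.Helper850.RB.P_level_pair
import Pool.Agent.Helper850.RB.P_GG_tri
import Pool.Agent.Helper850.RB.P_enum
import Pool.Agent.Helper850.RB.P_box

set_option autoImplicit false

namespace R3B
open Finset BigOperators


theorem level_exists {ι : Type} [Fintype ι] [DecidableEq ι] (rk : ι → ℕ)
    (V : ι → (ι → ZMod 2) → ι → ℤ) (hV : Valid1 rk V) (c : ℝ) (hc : Small V c)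
    (m : ℕ) (hm : 1 ≤ m) :
    ∃ (K s : ℕ → ℝ) (G : ℕ → ℕ → Prop),
      LevelSys ((2 * m) ^ Fintype.card ι) K s G ∧
      ∀ I : Finset ℕ, I ⊆ range ((2 * m) ^ Fintype.card ι) →
        (∀ i ∈ I, ∀ j ∈ I, j < i → ¬ G i j) →
        (I.card : ℝ) ≤ (c + (Fintype.card ι : ℝ) / m) * (((2 * m) ^ Fintype.card ι : ℕ) : ℝ) := by
  have hN : 2 ≤ 2 * m := by omega
  have hne : Nonempty (Fin (2 * m)) := ⟨⟨0, by omega⟩⟩
  have hinj : Function.Injective (kap (ι := ι) (N := 2 * m) (4 * (2 * m)) rk) := by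
    intro y y' h
    by_contra hyy
    obtain ⟨ℓ, hℓ⟩ := td_exists rk y y' hyy
    rcases lt_or_gt_of_ne hℓ.1 with h1 | h1
    · have h2 : TD rk y' y ℓ := ⟨fun h => hℓ.1 h.symm, fun l hl => (hℓ.2 l hl).symm⟩
      have := (kap_lt_iff (2 * m) hN rk hV.inj y' y ℓ h2).2 h1
      omega
    · have := (kap_lt_iff (2 * m) hN rk hV.inj y y' ℓ hℓ).2 h1
      omega
  obtain ⟨lev, hlev⟩ := enum (Y := ι → Fin (2 * m)) _ hinj
  have hcard : Fintype.card (ι → Fin (2 * m)) = (2 * m) ^ Fintype.card ι := by simp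
  rw [hcard] at hlev
  set M := (2 * m) ^ Fintype.card ι with hM
  have hM1 : 1 ≤ M := Nat.one_le_pow _ _ (by omega)
  obtain ⟨Λ, hΛ⟩ : ∃ Λ : ℝ, Λ = 1000 * ((Fintype.card ι : ℝ) + 1) * ((2 * m : ℕ) : ℝ) ^ 2 *
    (M : ℝ) ^ 2 := ⟨_, rfl⟩
  have hΛpos : 0 < Λ := by
    rw [hΛ]
    have h1 : (0 : ℝ) < ((2 * m : ℕ) : ℝ) := by exact_mod_cast (by omega : 0 < 2 * m)
    have h2 : (0 : ℝ) < (M : ℝ) := by exact_mod_cast hM1
    positivity
  have hpair := fun (l i : ℕ) (hli : l < i) (hi : i < M) =>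
    level_pair (2 * m) hN rk V hV M hM1 Λ hΛ.symm.le (lev i) (lev l) (hlev l i hli hi)
  refine ⟨fun i => Λ ^ (2 * kap (4 * (2 * m)) rk (lev i)),
    fun i => slope Λ (4 * (2 * m)) rk V (lev i), fun i j => GG V (lev i) (lev j), ?_, ?_⟩
  · refine ⟨?_, ?_, ?_, ?_, ?_, ?_⟩
    · intro i _
      exact pow_pos hΛpos _
    · intro l i hli hi
      exact (hpair l i hli hi).1
    · intro l i hli hi
      exact (hpair l i hli hi).2.1
    · intro l i hli hi hG
      exact (hpair l i hli hi).2.2.1 hG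
    · intro l i hli hi hG
      exact (hpair l i hli hi).2.2.2 hG
    · intro i j k _ _ _ h1 h2 h3
      exact GG_tri (2 * m) rk V hV _ _ _ h1 h2 h3
  · intro I hI hind
    have hlinj : Set.InjOn lev (I : Set ℕ) := by
      intro i hi j hj hij
      have hi' := Finset.mem_range.1 (hI hi)
      have hj' := Finset.mem_range.1 (hI hj)
      rcases lt_trichotomy i j with h | h | h
      · have := hlev i j h hj'
        rw [hij] at this
        exact absurd this (lt_irrefl _)
      · exact h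
      · have := hlev j i h hi'
        rw [hij] at this
        exact absurd this (lt_irrefl _)
    have hJ : ∀ y ∈ I.image lev, ∀ y' ∈ I.image lev, ¬ GG V y y' := by
      intro y hy y' hy' hG
      obtain ⟨i, hi, rfl⟩ := Finset.mem_image.1 hy
      obtain ⟨j, hj, rfl⟩ := Finset.mem_image.1 hy'
      rcases lt_trichotomy i j with h | h | h
      · have h1 := hlev i j h (Finset.mem_range.1 (hI hj))
        have h2 : lev i ≠ lev j := by
          intro h2
          rw [h2] at h1
          exact lt_irrefl _ h1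
        obtain ⟨ℓ, hℓ⟩ := td_exists rk _ _ h2
        have h3 := ((GG_iff (2 * m) hN rk V hV _ _ ℓ hℓ).1).1 hG
        omega
      · subst h
        obtain ⟨ℓ, hℓ⟩ := hG
        have h1 := hℓ ℓ
        rw [hV.self, sub_self] at h1
        exact absurd h1 (by norm_num)
      · exact hind i hi j hj h hG
    have h1 := box V hV.abs c hc m hm (I.image lev) hJ
    rw [Finset.card_image_of_injOn hlinj] at h1
    rw [hM]
    push_cast
    exact h1

end R3B
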