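import Pool.Agent.Helper850.RB.Defs

set_option autoImplicit false

namespace R3B
open Finset BigOperators


theorem numff (a1 a2 b1 b2 Ki Kj σ : ℝ) (hKi : 0 < Ki) (hKj : 0 < Kj)
    (ha : |a1 - Ki| ≤ Ki / 100) (hb : |b1 - Kj| ≤ Kj / 100)
    (hD : |(a1 * b2 - a2 * b1) - Ki * Kj * σ| ≤ 3 / 100 * (Ki * Kj * |σ|)) :
    (1 / 2 ≤ σ ^ 2 * Kj / Ki → σ ^ 2 * Kj / Ki ≤ 2 →
      0 ≤ (4 * (a1 * b2 - a2 * b1) ^ 2 - a1 ^ 3 * b1) *
        (4 * (a1 ^ 3 * b1) - (a1 * b2 - a2 * b1) ^ 2)) ∧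
    ((σ ^ 2 * Kj / Ki < 1 / 8 ∨ 8 < σ ^ 2 * Kj / Ki) →
      ¬ 0 ≤ (4 * (a1 * b2 - a2 * b1) ^ 2 - a1 ^ 3 * b1) *
        (4 * (a1 ^ 3 * b1) - (a1 * b2 - a2 * b1) ^ 2)) := by
  set D : ℝ := a1 * b2 - a2 * b1 with hDdef
  set R : ℝ := σ ^ 2 * Kj / Ki with hR
  set U : ℝ := Ki ^ 3 * Kj with hU
  set T : ℝ := a1 ^ 3 * b1 with hT
  have hUpos : 0 < U := by positivity
  have hR0 : 0 ≤ R := by positivity
  have ha' := abs_le.mp ha
  have hb' := abs_le.mp hb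
  have a1lo : 99 / 100 * Ki ≤ a1 := by linarith [ha'.1]
  have a1hi : a1 ≤ 101 / 100 * Ki := by linarith [ha'.2]
  have b1lo : 99 / 100 * Kj ≤ b1 := by linarith [hb'.1]
  have b1hi : b1 ≤ 101 / 100 * Kj := by linarith [hb'.2]
  have a1pos : 0 < a1 := by nlinarith
  have b1pos : 0 < b1 := by nlinarith
  have hTlo : (99 / 100) ^ 4 * U ≤ T := by
    have h1 : (99 / 100 * Ki) ^ 3 ≤ a1 ^ 3 := pow_le_pow_left₀ (by positivity) a1lo 3
    have h2 : (99 / 100 * Ki) ^ 3 * (99 / 100 * Kj) ≤ a1 ^ 3 * b1 :=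
      mul_le_mul h1 b1lo (by positivity) (by positivity)
    calc (99 / 100) ^ 4 * U = (99 / 100 * Ki) ^ 3 * (99 / 100 * Kj) := by rw [hU]; ring
      _ ≤ T := h2
  have hThi : T ≤ (101 / 100) ^ 4 * U := by
    have h1 : a1 ^ 3 ≤ (101 / 100 * Ki) ^ 3 := pow_le_pow_left₀ a1pos.le a1hi 3
    have h2 : a1 ^ 3 * b1 ≤ (101 / 100 * Ki) ^ 3 * (101 / 100 * Kj) :=
      mul_le_mul h1 b1hi b1pos.le (by positivity)
    calc T ≤ (101 / 100 * Ki) ^ 3 * (101 / 100 * Kj) := h2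
      _ = (101 / 100) ^ 4 * U := by rw [hU]; ring
  -- bounds for `D ^ 2`
  set s : ℝ := Ki * Kj * |σ| with hs
  have hs0 : 0 ≤ s := by positivity
  have hs2 : s ^ 2 = R * U := by
    rw [hs, mul_pow, sq_abs, hR, hU]
    field_simp
  have habs : |Ki * Kj * σ| = s := by
    rw [hs, abs_mul, abs_of_pos (mul_pos hKi hKj)]
  have hDhi : |D| ≤ 103 / 100 * s := by
    have h1 : |D| ≤ |D - Ki * Kj * σ| + |Ki * Kj * σ| := by
      have := abs_add_le (D - Ki * Kj * σ) (Ki * Kj * σ)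
      rwa [sub_add_cancel] at this
    rw [habs] at h1
    linarith
  have hDlo : 97 / 100 * s ≤ |D| := by
    have h1 : |Ki * Kj * σ| ≤ |D - Ki * Kj * σ| + |D| := by
      have := abs_sub_abs_le_abs_sub (Ki * Kj * σ) D
      rw [abs_sub_comm (Ki * Kj * σ) D] at this
      linarith
    rw [habs] at h1
    linarith
  have hD2hi : D ^ 2 ≤ (103 / 100) ^ 2 * (R * U) := by
    rw [← sq_abs D, ← hs2, ← mul_pow]
    exact pow_le_pow_left₀ (abs_nonneg _) hDhi 2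
  have hD2lo : (97 / 100) ^ 2 * (R * U) ≤ D ^ 2 := by
    rw [← sq_abs D, ← hs2, ← mul_pow]
    exact pow_le_pow_left₀ (by positivity) hDlo 2
  constructor
  · intro h1 h2
    have e1 : 1 / 2 * U ≤ R * U := mul_le_mul_of_nonneg_right h1 hUpos.le
    have e2 : R * U ≤ 2 * U := mul_le_mul_of_nonneg_right h2 hUpos.le
    apply mul_nonneg
    · nlinarith
    · nlinarith
  · intro h hcon
    rcases h with h | h
    · have e1 : R * U < 1 / 8 * U := mul_lt_mul_of_pos_right h hUpos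
      have f1 : 4 * D ^ 2 - T < 0 := by nlinarith
      have f2 : 0 < 4 * T - D ^ 2 := by nlinarith
      have := mul_neg_of_neg_of_pos f1 f2
      linarith
    · have e1 : 8 * U < R * U := mul_lt_mul_of_pos_right h hUpos
      have f1 : 0 < 4 * D ^ 2 - T := by nlinarith
      have f2 : 4 * T - D ^ 2 < 0 := by nlinarith
      have := mul_neg_of_pos_of_neg f1 f2
      linarith

end R3B
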