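import Pool.Agent.Helper850.RB.Defs

set_option autoImplicit false

namespace R3B
open Finset BigOperators


theorem sumK (M : ℕ) (hM : 1 ≤ M) (K c : ℕ → ℝ) (i : ℕ) (hi : i < M)
    (hK : ∀ l < M, 0 < K l) (hg : ∀ l < i, 100 * (M : ℝ) ^ 2 * K l ≤ K i)
    (hc : ∀ l, |c l| ≤ 1) (hci : c i = 1) (hc0 : ∀ l, i < l → c l = 0) :
    |(∑ l ∈ range M, c l * K l) - K i| ≤ K i / 100 := by
  classical
  have hM' : (1 : ℝ) ≤ (M : ℝ) := by exact_mod_cast hM
  have hKi : 0 < K i := hK i hi
  have hM2 : (0 : ℝ) < 100 * (M : ℝ) ^ 2 := by positivity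
  rw [← Finset.add_sum_erase _ _ (Finset.mem_range.mpr hi), hci, one_mul, add_sub_cancel_left]
  have hterm : ∀ l ∈ (range M).erase i, |c l * K l| ≤ K i / (100 * (M : ℝ) ^ 2) := by
    intro l hl
    rw [Finset.mem_erase, Finset.mem_range] at hl
    rcases lt_or_gt_of_ne hl.1 with h | h
    · rw [abs_mul, abs_of_pos (hK l hl.2)]
      have h1 : |c l| * K l ≤ 1 * K l := mul_le_mul_of_nonneg_right (hc l) (hK l hl.2).le
      rw [le_div_iff₀ hM2]
      have h2 := hg l h
      nlinarith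
    · rw [hc0 l h]
      simp only [zero_mul, abs_zero]
      positivity
  calc |∑ l ∈ (range M).erase i, c l * K l| ≤ ∑ l ∈ (range M).erase i, |c l * K l| :=
        Finset.abs_sum_le_sum_abs _ _
    _ ≤ ∑ _l ∈ (range M).erase i, K i / (100 * (M : ℝ) ^ 2) := Finset.sum_le_sum hterm
    _ = (((range M).erase i).card : ℝ) * (K i / (100 * (M : ℝ) ^ 2)) := by
        rw [Finset.sum_const, nsmul_eq_mul]
    _ ≤ (M : ℝ) * (K i / (100 * (M : ℝ) ^ 2)) := by
        apply mul_le_mul_of_nonneg_right _ (by positivity)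
        have := Finset.card_le_card (Finset.erase_subset i (range M))
        rw [Finset.card_range] at this
        exact_mod_cast this
    _ ≤ K i / 100 := by
        rw [mul_div_assoc', div_le_div_iff₀ hM2 (by norm_num)]
        have : (M : ℝ) ≤ (M : ℝ) ^ 2 := by nlinarith
        nlinarith [mul_le_mul_of_nonneg_left this hKi.le]

end R3B
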