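import Pool.Agent.Helper850.RB.Defs
import Pool.Agent.Helper850.RB.P_sumK
import Pool.Agent.Helper850.RB.P_detK
import Pool.Agent.Helper850.RB.P_numff

set_option autoImplicit false

namespace R3B
open Finset BigOperators


theorem top_c_19498 {u v i : ℕ} (h : Top u v i) :
    (∀ l, |((if v.testBit l then 1 else 0) - (if u.testBit l then 1 else 0) : ℝ)| ≤ 1) ∧
    ((if v.testBit i then 1 else 0) - (if u.testBit i then 1 else 0) : ℝ) = 1 ∧
    (∀ l, i < l → ((if v.testBit l then 1 else 0) - (if u.testBit l then 1 else 0) : ℝ) = 0) := by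
  refine ⟨fun l => ?_, ?_, fun l hl => ?_⟩
  · split_ifs <;> norm_num
  · rw [h.1, h.2.1]; norm_num
  · rw [h.2.2 l hl, sub_self]

theorem pt_sub_19498 (M : ℕ) (K s : ℕ → ℝ) (u v : ℕ) :
    (pt M K s v).1 - (pt M K s u).1 = ∑ l ∈ range M,
      ((if v.testBit l then 1 else 0) - (if u.testBit l then 1 else 0)) * K l ∧
    (pt M K s v).2 - (pt M K s u).2 = ∑ l ∈ range M,
      ((if v.testBit l then 1 else 0) - (if u.testBit l then 1 else 0)) * (K l * s l) := by
  constructor
  · show (∑ i ∈ range M, (if v.testBit i then K i else 0)) -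
      (∑ i ∈ range M, (if u.testBit i then K i else 0)) = _
    rw [← sum_sub_distrib]
    refine sum_congr rfl fun l _ => ?_
    split_ifs <;> ring
  · show (∑ i ∈ range M, (if v.testBit i then K i * s i else 0)) -
      (∑ i ∈ range M, (if u.testBit i then K i * s i else 0)) = _
    rw [← sum_sub_distrib]
    refine sum_congr rfl fun l _ => ?_
    split_ifs <;> ring

theorem geom (M : ℕ) (hM : 1 ≤ M) (K s : ℕ → ℝ) (hK : ∀ l < M, 0 < K l)
    (hsep : ∀ l i, l < i → i < M → 1 ≤ |s l - s i|)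
    (hgrow : ∀ l i, l < i → i < M → 100 * (M : ℝ) ^ 2 * (K l * |s l - s i|) ≤ K i)
    (u v w i j : ℕ) (hi : i < M) (hj : j < M) (huv : Top u v i) (hvw : Top v w j) :
    (1 / 2 ≤ rho K s i j → rho K s i j ≤ 2 →
      0 ≤ ff (pt M K s u) (pt M K s v) (pt M K s w)) ∧
    ((rho K s i j < 1 / 8 ∨ 8 < rho K s i j) →
      ¬ 0 ≤ ff (pt M K s u) (pt M K s v) (pt M K s w)) := by
  obtain ⟨hc, hci, hc0⟩ := top_c_19498 huv
  obtain ⟨hc', hcj, hc0'⟩ := top_c_19498 hvw
  obtain ⟨e1, e2⟩ := pt_sub_19498 M K s u v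
  obtain ⟨e3, e4⟩ := pt_sub_19498 M K s v w
  have hij : i ≠ j := by
    rintro rfl
    have h1 := huv.2.1
    have h2 := hvw.1
    rw [h1] at h2
    exact absurd h2 (by decide)
  have hg : ∀ i < M, ∀ l < i, 100 * (M : ℝ) ^ 2 * K l ≤ K i := by
    intro i hi l hl
    refine le_trans ?_ (hgrow l i hl hi)
    refine mul_le_mul_of_nonneg_left ?_ (by positivity)
    have h1 := hsep l i hl hi
    have h2 := (hK l (hl.trans hi)).le
    nlinarith
  have s1 := sumK M hM K _ i hi hK (hg i hi) hc hci hc0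
  have s2 := sumK M hM K _ j hj hK (hg j hj) hc' hcj hc0'
  have d := detK M hM K s _ _ i j hi hj hij hK hsep hgrow hc hci hc0 hc' hcj hc0'
  have hab : |s i - s j| = |s j - s i| := abs_sub_comm _ _
  rw [hab] at d
  rw [← e1] at s1
  rw [← e3] at s2
  rw [← e1, ← e2, ← e3, ← e4] at d
  have key := numff _ _ _ _ (K i) (K j) (s j - s i) (hK i hi) (hK j hj) s1 s2 d
  have hrho : rho K s i j = (s j - s i) ^ 2 * K j / K i := by
    unfold rho
    have : (s i - s j) ^ 2 = (s j - s i) ^ 2 := by ring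
    rw [this]
  rw [hrho]
  exact key

end R3B
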