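import Pool.Agent.Helper850.RB.Defs

set_option autoImplicit false

namespace R3B
open Finset BigOperators


theorem ig_mono (G : ℕ → ℕ → Prop) {W W' : Finset ℕ} (h : W ⊆ W') : indc G W ≤ indc G W' := by
  classical
  unfold indc
  apply Finset.card_le_card
  intro I hI
  simp only [Finset.mem_filter, Finset.mem_powerset] at hI ⊢
  exact ⟨hI.1.trans h, hI.2⟩

theorem ig_split (G : ℕ → ℕ → Prop) (n : ℕ) (W W' : Finset ℕ) (hW : ∀ i ∈ W, i < n + 1)
    (hn : n ∈ W) (hW' : ∀ j ∈ W', j ∈ W.erase n ∧ ¬ G n j) :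
    indc G (W.erase n) + indc G W' ≤ indc G W := by
  classical
  have hnW' : n ∉ W' := fun h => (Finset.mem_erase.1 (hW' n h).1).1 rfl
  obtain ⟨P, hP⟩ : ∃ P : Finset ℕ → Prop, P = fun I => ∀ i ∈ I, ∀ j ∈ I, j < i → ¬ G i j :=
    ⟨_, rfl⟩
  have e : ∀ X : Finset ℕ, indc G X = (X.powerset.filter P).card := by
    intro X
    subst hP
    unfold indc
    congr
  rw [e, e, e]
  have hPa : ∀ I, P I ↔ ∀ i ∈ I, ∀ j ∈ I, j < i → ¬ G i j := by
    intro I
    rw [hP]
  clear e hP
  have hinj : Set.InjOn (fun I : Finset ℕ => insert n I)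
      ((W'.powerset.filter P : Finset (Finset ℕ)) : Set (Finset ℕ)) := by
    intro I hI J hJ hIJ
    rw [Finset.mem_coe, Finset.mem_filter, Finset.mem_powerset] at hI hJ
    have h1 : n ∉ I := fun h => hnW' (hI.1 h)
    have h2 : n ∉ J := fun h => hnW' (hJ.1 h)
    have h3 : (insert n I).erase n = (insert n J).erase n := by
      simp only at hIJ
      rw [hIJ]
    rwa [Finset.erase_insert h1, Finset.erase_insert h2] at h3
  rw [← Finset.card_image_of_injOn hinj, ← Finset.card_union_of_disjoint]
  · apply Finset.card_le_card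
    intro I hI
    rw [Finset.mem_union, Finset.mem_image] at hI
    rw [Finset.mem_filter, Finset.mem_powerset]
    rcases hI with hI | ⟨J, hJ, rfl⟩
    · rw [Finset.mem_filter, Finset.mem_powerset] at hI
      exact ⟨hI.1.trans (Finset.erase_subset _ _), hI.2⟩
    · rw [Finset.mem_filter, Finset.mem_powerset] at hJ
      rw [hPa] at hJ
      refine ⟨?_, (hPa _).2 ?_⟩
      · intro x hx
        rcases Finset.mem_insert.1 hx with rfl | hx
        · exact hn
        · exact Finset.mem_of_mem_erase (hW' x (hJ.1 hx)).1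
      · intro i hi j hj hji
        rcases Finset.mem_insert.1 hi with rfl | hi
        · rcases Finset.mem_insert.1 hj with rfl | hj
          · exact absurd hji (lt_irrefl _)
          · exact (hW' j (hJ.1 hj)).2
        · have hi' := hW' i (hJ.1 hi)
          rcases Finset.mem_insert.1 hj with rfl | hj
          · have := hW i (Finset.mem_of_mem_erase hi'.1)
            omega
          · exact hJ.2 i hi j hj hji
  · rw [Finset.disjoint_left]
    intro I hI hI'
    rw [Finset.mem_filter, Finset.mem_powerset] at hI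
    rw [Finset.mem_image] at hI'
    obtain ⟨J, _, rfl⟩ := hI'
    exact (Finset.mem_erase.1 (hI.1 (Finset.mem_insert_self _ _))).1 rfl

theorem ig_empty (G : ℕ → ℕ → Prop) (W : Finset ℕ) : 1 ≤ indc G W := by
  unfold indc
  rw [Nat.one_le_iff_ne_zero, ← Nat.pos_iff_ne_zero, Finset.card_pos]
  exact ⟨∅, by simp⟩

theorem Top_unique_ge {u v i n : ℕ} (h : Top u v i) (hn : u.testBit n ≠ v.testBit n) : n ≤ i := by
  by_contra hc
  push Not at hc
  exact hn (h.2.2 n hc)

theorem indep_gen (G : ℕ → ℕ → Prop) (n : ℕ) : ∀ (W S : Finset ℕ), (∀ i ∈ W, i < n) →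
    (∀ u ∈ S, ∀ v ∈ S, u < v → ∃ i ∈ W, Top u v i) →
    (∀ u ∈ S, ∀ v ∈ S, ∀ w ∈ S, ∀ i j, Top u v i → Top v w j → j < i → ¬ G i j) →
    S.card ≤ indc G W := by
  classical
  induction n with
  | zero =>
    intro W S hW hS _
    have hc : S.card ≤ 1 := by
      rw [Finset.card_le_one]
      intro a ha b hb
      by_contra hab
      rcases lt_or_gt_of_ne hab with h | h
      · obtain ⟨i, hi, _⟩ := hS a ha b hb h
        exact absurd (hW i hi) (Nat.not_lt_zero _)
      · obtain ⟨i, hi, _⟩ := hS b hb a ha h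
        exact absurd (hW i hi) (Nat.not_lt_zero _)
    exact hc.trans (ig_empty G W)
  | succ n ih =>
    intro W S hW hS hG
    have hWe : ∀ i ∈ W.erase n, i < n := by
      intro i hi
      have h1 := Finset.mem_erase.1 hi
      have h2 := hW i h1.2
      have h3 := h1.1
      omega
    -- a subset of S with constant n-th bit
    have hsub : ∀ (T : Finset ℕ), T ⊆ S → (∀ u ∈ T, ∀ v ∈ T, u.testBit n = v.testBit n) →
        ∀ u ∈ T, ∀ v ∈ T, u < v → ∃ i ∈ W.erase n, Top u v i := by
      intro T hT hb u hu v hv huv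
      obtain ⟨i, hi, ht⟩ := hS u (hT hu) v (hT hv) huv
      refine ⟨i, Finset.mem_erase.2 ⟨?_, hi⟩, ht⟩
      rintro rfl
      have h1 := hb u hu v hv
      rw [ht.1, ht.2.1] at h1
      exact Bool.noConfusion h1
    have hone : ∀ (T : Finset ℕ), T ⊆ S → (∀ u ∈ T, ∀ v ∈ T, u.testBit n = v.testBit n) →
        T.card ≤ indc G (W.erase n) := by
      intro T hT hb
      exact ih (W.erase n) T hWe (hsub T hT hb)
        (fun u hu v hv w hw i j h1 h2 h3 => hG u (hT hu) v (hT hv) w (hT hw) i j h1 h2 h3)
    set S0 := S.filter (fun u => u.testBit n = false) with hS0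
    set S1 := S.filter (fun u => ¬ (u.testBit n = false)) with hS1
    have hcard : S0.card + S1.card = S.card := Finset.card_filter_add_card_filter_not _
    have h0b : ∀ u ∈ S0, ∀ v ∈ S0, u.testBit n = v.testBit n := by
      intro u hu v hv
      rw [(Finset.mem_filter.1 hu).2, (Finset.mem_filter.1 hv).2]
    have h1b' : ∀ u ∈ S1, u.testBit n = true := by
      intro u hu
      have := (Finset.mem_filter.1 hu).2
      simpa using this
    have h1b : ∀ u ∈ S1, ∀ v ∈ S1, u.testBit n = v.testBit n := by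
      intro u hu v hv
      rw [h1b' u hu, h1b' v hv]
    have hS0s : S0 ⊆ S := Finset.filter_subset _ _
    have hS1s : S1 ⊆ S := Finset.filter_subset _ _
    rcases Finset.eq_empty_or_nonempty S0 with he | ⟨u0, hu0⟩
    · rw [← hcard, he, Finset.card_empty, zero_add]
      exact (hone S1 hS1s h1b).trans (ig_mono G (Finset.erase_subset _ _))
    rcases Finset.eq_empty_or_nonempty S1 with he | ⟨v0, hv0⟩
    · rw [← hcard, he, Finset.card_empty, add_zero]
      exact (hone S0 hS0s h0b).trans (ig_mono G (Finset.erase_subset _ _))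
    have htop : ∀ v ∈ S1, n ∈ W ∧ Top u0 v n := by
      intro v hv
      have hu0b : u0.testBit n = false := (Finset.mem_filter.1 hu0).2
      have hvb := h1b' v hv
      have hne : u0.testBit n ≠ v.testBit n := by rw [hu0b, hvb]; exact Bool.noConfusion
      rcases lt_trichotomy u0 v with h | h | h
      · obtain ⟨i, hi, ht⟩ := hS u0 (hS0s hu0) v (hS1s hv) h
        have h1 := Top_unique_ge ht hne
        have h2 := hW i hi
        have h3 : i = n := by omega
        subst h3
        exact ⟨hi, ht⟩
      · exact absurd (by rw [h]) hne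
      · obtain ⟨i, hi, ht⟩ := hS v (hS1s hv) u0 (hS0s hu0) h
        have h1 := Top_unique_ge ht hne.symm
        have h2 := hW i hi
        have h3 : i = n := by omega
        subst h3
        have h4 := ht.1
        rw [hvb] at h4
        exact Bool.noConfusion h4
    have hnW : n ∈ W := (htop v0 hv0).1
    have hle0 := hone S0 hS0s h0b
    have hle1 : S1.card ≤ indc G ((W.erase n).filter (fun j => ¬ G n j)) := by
      refine ih _ S1 (fun i hi => hWe i (Finset.mem_filter.1 hi).1) ?_
        (fun u hu v hv w hw i j h1 h2 h3 => hG u (hS1s hu) v (hS1s hv) w (hS1s hw) i j h1 h2 h3)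
      intro v hv w hw hvw
      obtain ⟨j, hj, ht⟩ := hsub S1 hS1s h1b v hv w hw hvw
      refine ⟨j, Finset.mem_filter.2 ⟨hj, ?_⟩, ht⟩
      exact hG u0 (hS0s hu0) v (hS1s hv) w (hS1s hw) n j (htop v hv).2 ht (hWe j hj)
    rw [← hcard]
    refine (add_le_add hle0 hle1).trans (ig_split G n W _ hW hnW ?_)
    intro j hj
    exact Finset.mem_filter.1 hj

end R3B
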