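import Pool.Agent.Helper850.RB.Defs

set_option autoImplicit false

namespace R3B
open Finset BigOperators


theorem top_exists (M u v : ℕ) (h : u < v) (hv : v < 2 ^ M) : ∃ i, i < M ∧ Top u v i := by
  have hne : u ^^^ v ≠ 0 := by
    intro h0
    rw [Nat.xor_eq_zero_iff] at h0
    omega
  obtain ⟨i, hi, hhi⟩ := Nat.exists_most_significant_bit hne
  have hagree : ∀ l, i < l → u.testBit l = v.testBit l := by
    intro l hl
    have h1 := hhi l hl
    rw [Nat.testBit_xor] at h1
    cases h2 : u.testBit l <;> cases h3 : v.testBit l <;> simp_all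
  rw [Nat.testBit_xor] at hi
  have hcase : (u.testBit i = false ∧ v.testBit i = true) ∨
      (u.testBit i = true ∧ v.testBit i = false) := by
    cases h2 : u.testBit i <;> cases h3 : v.testBit i <;> simp_all
  rcases hcase with ⟨h1, h2⟩ | ⟨h1, h2⟩
  · refine ⟨i, ?_, h1, h2, hagree⟩
    by_contra hcon
    push Not at hcon
    have : v < 2 ^ i := lt_of_lt_of_le hv (Nat.pow_le_pow_right (by norm_num) hcon)
    rw [Nat.testBit_lt_two_pow this] at h2
    cases h2
  · have := Nat.lt_of_testBit i h2 h1 (fun l hl => (hagree l hl).symm)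
    omega

end R3B
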