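import Pool.Agent.Helper850.RB.Defs
import Pool.Agent.Helper850.RB.P_top_exists

set_option autoImplicit false

namespace R3B
open Finset BigOperators


theorem no_k4 (M : ℕ) (G : ℕ → ℕ → Prop)
    (tri : ∀ i j k, k < j → j < i → i < M → G i j → G j k → G i k → False)
    (u0 u1 u2 u3 : ℕ) (h01 : u0 < u1) (h12 : u1 < u2) (h23 : u2 < u3) (h3 : u3 < 2 ^ M)
    (c012 : ∀ i j, Top u0 u1 i → Top u1 u2 j → j < i ∧ G i j)
    (c123 : ∀ i j, Top u1 u2 i → Top u2 u3 j → j < i ∧ G i j)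
    (c023 : ∀ i j, Top u0 u2 i → Top u2 u3 j → j < i ∧ G i j) : False := by
  obtain ⟨k, hk, hT3⟩ := top_exists M u2 u3 h23 h3
  obtain ⟨j, hj, hT2⟩ := top_exists M u1 u2 h12 (h23.trans h3)
  obtain ⟨i, hi, hT1⟩ := top_exists M u0 u1 h01 (h12.trans (h23.trans h3))
  obtain ⟨hji, hGij⟩ := c012 i j hT1 hT2
  obtain ⟨hkj, hGjk⟩ := c123 j k hT2 hT3
  have hT : Top u0 u2 i := by
    refine ⟨hT1.1, ?_, fun l hl => ?_⟩
    · rw [← hT2.2.2 i hji]; exact hT1.2.1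
    · rw [hT1.2.2 l hl, hT2.2.2 l (hji.trans hl)]
  obtain ⟨_, hGik⟩ := c023 i k hT hT3
  exact tri i j k hkj hji hi hGij hGjk hGik

end R3B
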