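import Pool.Agent.Helper850.RB.Defs
import Pool.Agent.Helper850.RB.P_sumK

set_option autoImplicit false

namespace R3B
open Finset BigOperators


theorem pt_mono (M : ℕ) (hM : 1 ≤ M) (K s : ℕ → ℝ) (hK : ∀ l < M, 0 < K l)
    (hsep : ∀ l i, l < i → i < M → 1 ≤ |s l - s i|)
    (hgrow : ∀ l i, l < i → i < M → 100 * (M : ℝ) ^ 2 * (K l * |s l - s i|) ≤ K i)
    (u v i : ℕ) (hi : i < M) (huv : Top u v i) : (pt M K s u).1 < (pt M K s v).1 := by
  obtain ⟨h1, h2, h3⟩ := huv
  let c : ℕ → ℝ := fun l => (if v.testBit l then 1 else 0) - (if u.testBit l then 1 else 0)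
  have hg : ∀ l < i, 100 * (M : ℝ) ^ 2 * K l ≤ K i := by
    intro l hl
    have e1 := hgrow l i hl hi
    have e2 := hsep l i hl hi
    have e3 := hK l (hl.trans hi)
    have e4 : K l * 1 ≤ K l * |s l - s i| := mul_le_mul_of_nonneg_left e2 e3.le
    have e5 : 100 * (M : ℝ) ^ 2 * (K l * 1) ≤ 100 * (M : ℝ) ^ 2 * (K l * |s l - s i|) :=
      mul_le_mul_of_nonneg_left e4 (by positivity)
    linarith
  have hc : ∀ l, |c l| ≤ 1 := by
    intro l
    simp only [c]
    split_ifs <;> norm_num
  have hci : c i = 1 := by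
    simp only [c]
    rw [h1, h2]
    norm_num
  have hc0 : ∀ l, i < l → c l = 0 := by
    intro l hl
    simp only [c]
    rw [h3 l hl, sub_self]
  have hs := sumK M hM K c i hi hK hg hc hci hc0
  have hKi := hK i hi
  have hsum : (pt M K s v).1 - (pt M K s u).1 = ∑ l ∈ range M, c l * K l := by
    simp only [pt]
    rw [← Finset.sum_sub_distrib]
    refine Finset.sum_congr rfl fun l _ => ?_
    simp only [c]
    split_ifs <;> ring
  have h5 := (abs_le.mp hs).1
  linarith

end R3B
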