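import Pool.Agent.Helper850.RB.Defs
import Pool.Agent.Helper850.RB.P_geom
import Pool.Agent.Helper850.RB.P_top_exists
import Pool.Agent.Helper850.RB.P_indep_gen
import Pool.Agent.Helper850.RB.P_no_k4
import Pool.Agent.Helper850.RB.P_pt_mono
import Pool.Agent.Helper850.RB.P_eval_fpoly

set_option autoImplicit false

namespace R3B
open Finset BigOperators


theorem lw_top_lt {u v i : ℕ} (h : Top u v i) : u < v :=
  Nat.lt_of_testBit i h.1 h.2.1 h.2.2

theorem lw_lt_M {M v i : ℕ} (hv : v < 2 ^ M) (h : v.testBit i = true) : i < M := by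
  by_contra hc
  push Not at hc
  have h1 : v < 2 ^ i := lt_of_lt_of_le hv (Nat.pow_le_pow_right (by norm_num) hc)
  rw [Nat.testBit_lt_two_pow h1] at h
  exact Bool.noConfusion h

theorem lw_rho (M : ℕ) (hM : 1 ≤ M) (K s : ℕ → ℝ) (G : ℕ → ℕ → Prop) (h : LevelSys M K s G)
    (i j : ℕ) (hij : i < j) (hj : j < M) : 8 < rho K s i j := by
  have hi : i < M := hij.trans hj
  have hKi := h.pos i hi
  have hsep := h.sep i j hij hj
  have hg := h.grow i j hij hj
  have hM1 : (1 : ℝ) ≤ M := by exact_mod_cast hM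
  have hM2 : (1 : ℝ) ≤ (M : ℝ) ^ 2 := one_le_pow₀ hM1
  obtain ⟨a, ha⟩ : ∃ a, a = |s i - s j| := ⟨_, rfl⟩
  have hsq : (s i - s j) ^ 2 = a ^ 2 := by rw [ha, sq_abs]
  rw [← ha] at hsep hg
  have h1 : 100 * K i ≤ K j := by
    have h2 : K i ≤ K i * a := by nlinarith
    have h3 : K i * a ≤ (M : ℝ) ^ 2 * (K i * a) := by
      have : 0 ≤ K i * a := by positivity
      nlinarith
    nlinarith
  have hKj : 0 < K j := by linarith
  unfold rho
  rw [hsq, lt_div_iff₀ hKi]
  have h4 : K j ≤ a ^ 2 * K j := by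
    have : 1 ≤ a ^ 2 := one_le_pow₀ hsep
    nlinarith
  linarith

theorem lw_a (M : ℕ) (hM : 1 ≤ M) (K s : ℕ → ℝ) (G : ℕ → ℕ → Prop) (h : LevelSys M K s G)
    (u v w : ℕ) (hv : v < 2 ^ M) (hw : w < 2 ^ M)
    (hF : 0 ≤ ff (pt M K s u) (pt M K s v) (pt M K s w)) (i j : ℕ) (hi : Top u v i)
    (hj : Top v w j) : j < i ∧ G i j := by
  have hiM : i < M := lw_lt_M hv hi.2.1
  have hjM : j < M := lw_lt_M hw hj.2.1
  have hg := geom M hM K s h.pos h.sep h.grow u v w i j hiM hjM hi hj
  have hne : i ≠ j := by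
    rintro rfl
    have := hi.2.1.symm.trans hj.1
    exact Bool.noConfusion this
  rcases lt_or_gt_of_ne hne with hlt | hlt
  · exact absurd hF (hg.2 (Or.inr (lw_rho M hM K s G h i j hlt hjM)))
  · refine ⟨hlt, ?_⟩
    by_contra hG
    exact absurd hF (hg.2 (h.nonedge j i hlt hiM hG))

theorem lw_b (M : ℕ) (hM : 1 ≤ M) (K s : ℕ → ℝ) (G : ℕ → ℕ → Prop) (h : LevelSys M K s G)
    (u v w : ℕ) (hv : v < 2 ^ M) (hw : w < 2 ^ M)
    (hF : ¬ 0 ≤ ff (pt M K s u) (pt M K s v) (pt M K s w)) (i j : ℕ) (hi : Top u v i)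
    (hj : Top v w j) (hji : j < i) : ¬ G i j := by
  intro hG
  have hiM : i < M := lw_lt_M hv hi.2.1
  have hjM : j < M := lw_lt_M hw hj.2.1
  have hg := geom M hM K s h.pos h.sep h.grow u v w i j hiM hjM hi hj
  have he := h.edge j i hji hiM hG
  exact hF (hg.1 he.1 he.2)

theorem lower (M : ℕ) (hM : 1 ≤ M) (K s : ℕ → ℝ) (G : ℕ → ℕ → Prop) (h : LevelSys M K s G)
    (n N : ℕ) (hn : indc G (range M) < n) (hN : Arrow fpoly 4 n N) : 2 ^ M < N := by
  by_contra hle
  push Not at hle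
  have hlt : ∀ x : Fin N, (x : ℕ) < 2 ^ M := fun x => lt_of_lt_of_le x.2 hle
  have hmono : ∀ x y : Fin N, x < y → (pt M K s x).1 < (pt M K s y).1 := by
    intro x y hxy
    obtain ⟨i, hi, ht⟩ := top_exists M x y hxy (hlt y)
    exact pt_mono M hM K s h.pos h.sep h.grow x y i hi ht
  have hinj : Function.Injective (fun x : Fin N => pt M K s x) := by
    intro x y hxy
    have hxy' : pt M K s x = pt M K s y := hxy
    rcases lt_trichotomy x y with h1 | h1 | h1
    · have := hmono x y h1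
      rw [hxy'] at this
      exact absurd this (lt_irrefl _)
    · exact h1
    · have := hmono y x h1
      rw [hxy'] at this
      exact absurd this (lt_irrefl _)
  rcases hN _ hinj with ⟨S, hS, hcl⟩ | ⟨S, hS, hind⟩
  · let o := S.orderEmbOfFin hS
    have hmem : ∀ k, o k ∈ S := fun k => S.orderEmbOfFin_mem hS k
    have holt : ∀ a b : Fin 4, a < b → o a < o b := fun a b hab => o.strictMono hab
    have hkey : ∀ a b c : Fin 4, a < b → b < c → ∀ i j, Top (o a) (o b) i → Top (o b) (o c) j →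
        j < i ∧ G i j := by
      intro a b c hab hbc i j hi hj
      have h1 := hcl (o a) (hmem a) (o b) (hmem b) (o c) (hmem c) (holt a b hab) (holt b c hbc)
      rw [eval_fpoly] at h1
      exact lw_a M hM K s G h _ _ _ (hlt _) (hlt _) h1 i j hi hj
    exact no_k4 M G h.tri (o 0) (o 1) (o 2) (o 3) (holt 0 1 (by decide)) (holt 1 2 (by decide))
      (holt 2 3 (by decide)) (hlt _) (hkey 0 1 2 (by decide) (by decide))
      (hkey 1 2 3 (by decide) (by decide)) (hkey 0 2 3 (by decide) (by decide))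
  · have h1 : (S.map Fin.valEmbedding).card ≤ indc G (range M) := by
      apply indep_gen G M
      · intro i hi
        exact mem_range.1 hi
      · intro u hu v hv huv
        rw [mem_map] at hu hv
        obtain ⟨x, _, rfl⟩ := hu
        obtain ⟨y, _, rfl⟩ := hv
        obtain ⟨i, hi, ht⟩ := top_exists M x y huv (hlt y)
        exact ⟨i, mem_range.2 hi, ht⟩
      · intro u hu v hv w hw i j hi hj hji
        rw [mem_map] at hu hv hw
        obtain ⟨x, hx, rfl⟩ := hu
        obtain ⟨y, hy, rfl⟩ := hv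
        obtain ⟨z, hz, rfl⟩ := hw
        have h2 := hind x hx y hy z hz (lw_top_lt hi) (lw_top_lt hj)
        rw [eval_fpoly] at h2
        exact lw_b M hM K s G h _ _ _ (hlt y) (hlt z) h2 i j hi hj hji
    rw [card_map, hS] at h1
    exact absurd h1 (not_le.2 hn)

end R3B
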