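import Pool.Agent.Helper850.RB.Defs

set_option autoImplicit false

namespace R3B
open Finset BigOperators


theorem small_card {ι : Type} [Fintype ι] [DecidableEq ι] (V : ι → (ι → ZMod 2) → ι → ℤ) (c : ℝ)
    (hV : Small V c) (hc : c < 1) : 1 ≤ Fintype.card ι := by
  by_contra h0
  have h1 : Fintype.card ι = 0 := by omega
  have h2 : IsEmpty ι := Fintype.card_eq_zero_iff.1 h1
  have h3 := hV (ZMod 2) 1 (AddMonoidHom.id (ZMod 2)) rfl (fun _ => 1)
    (fun _ => ⟨zero_le_one, le_rfl⟩) (fun _ ℓ => (h2.false ℓ).elim)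
  have h4 : 𝔼 _x : ι → ZMod 2, (1 : ℝ) = 1 := Finset.expect_const Finset.univ_nonempty 1
  rw [h4] at h3
  linarith

end R3B
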