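import Pool.Agent.Helper850.RB.Defs
import Pool.Agent.Helper850.RB.P_lower
import Pool.Agent.Helper850.RB.P_level_exists
import Pool.Agent.Helper850.RB.P_small_card
import Pool.Agent.Helper850.RB.P_count
import Pool.Agent.Helper850.RB.P_growth
import Pool.Agent.Helper850.RB.P_arrow_exists

set_option autoImplicit false

namespace R3B
open Finset BigOperators


theorem final
    (hcore : ∀ c : ℝ, 0 < c → ∃ (ι : Type) (_ : Fintype ι) (_ : DecidableEq ι)
      (rk : ι → ℕ) (V : ι → (ι → ZMod 2) → ι → ℤ), Valid1 rk V ∧ Small V c) (C : ℕ) :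
    ∀ᶠ n in Filter.atTop, C * n ^ C < RR fpoly 4 n := by
  obtain ⟨β, hβ0, hβ1, hβ⟩ := count (2 * ((C : ℝ) + 1)) (by positivity)
  obtain ⟨ι, hf, hd, rk, V, hV1, hV⟩ := hcore (β / 2) (by positivity)
  have hL := small_card V (β / 2) hV (by linarith)
  set L := Fintype.card ι with hLdef
  refine growth (RR fpoly 4) L (⌈2 * (L : ℝ) / β⌉₊ + 1) C hL ?_
  intro m hm n hn
  have hm1 : 1 ≤ m := by omega
  have hmR : (0 : ℝ) < m := by exact_mod_cast hm1
  have hm2 : 2 * (L : ℝ) / β ≤ m := by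
    have h1 : ⌈2 * (L : ℝ) / β⌉₊ ≤ m := by omega
    exact (Nat.ceil_le.1 h1)
  have hm3 : (L : ℝ) / m ≤ β / 2 := by
    rw [div_le_iff₀ hβ0] at hm2
    rw [div_le_iff₀ hmR]
    linarith
  obtain ⟨K, s, G, hLS, hI⟩ := level_exists rk V hV1 (β / 2) hV m hm1
  rw [← hLdef] at hLS hI
  set M := (2 * m) ^ L with hM
  have hM1 : 1 ≤ M := Nat.one_le_pow _ _ (by omega)
  have hcnt : (indc G (range M) : ℝ) ≤ (2 : ℝ) ^ ((M : ℝ) / (2 * ((C : ℝ) + 1))) := by
    classical
    unfold indc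
    apply hβ
    intro I hI0
    have hI' := (@Finset.mem_filter _ _ (_) _ _).1 hI0
    rw [Finset.mem_powerset] at hI'
    refine ⟨hI'.1, (hI I hI'.1 hI'.2).trans ?_⟩
    apply mul_le_mul_of_nonneg_right _ (Nat.cast_nonneg _)
    linarith
  have hlt : indc G (range M) < n := by
    have : (indc G (range M) : ℝ) < n := lt_of_le_of_lt hcnt hn
    exact_mod_cast this
  exact lower M hM1 K s G hLS n (RR fpoly 4 n) hlt (Nat.sInf_mem (arrow_exists fpoly 4 n))

end R3B
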